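import Pool.Agent.KnotFloer.Family

/-!
# Alexander polynomials of the staircases
-/

namespace Pool.Agent.KnotFloer

open Polynomial

/-- `Δ` is the Alexander polynomial of the torus knot `T(p,q)`, normalised to have constant term
`1`, that is, `Δ = (t^{pq} - 1)(t - 1) / ((t^p - 1)(t^q - 1))`. -/
def IsTorusAlexander (p q : ℕ) (Δ : Polynomial ℤ) : Prop :=
  Δ * ((X ^ p - 1) * (X ^ q - 1)) = (X ^ (p * q) - 1) * (X - 1)

lemma torus_alexander (p : ℕ) (hp : 1 ≤ p) : IsTorusAlexander p (p + 1)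
    (torusStair p).alexander := by
  obtain ⟨m, rfl⟩ : ∃ m, p = m + 1 := ⟨p - 1, by omega⟩
  have e : ∀ i ≤ m, ∑ l ∈ Finset.range i, ((l + 1) + (m - l)) = (m + 1) * i := by
    intro i hi
    rw [Finset.sum_congr rfl (g := fun _ => m + 1)]
    · rw [Finset.sum_const, Finset.card_range, smul_eq_mul, mul_comm]
    · intro l hl
      have := Finset.mem_range.1 hl
      omega
  have h1 : (torusStair (m + 1)).alexander =
      ∑ i ∈ Finset.range (m + 1), ((X : Polynomial ℤ) ^ (m + 1)) ^ i -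
        X * ∑ j ∈ Finset.range m, ((X : Polynomial ℤ) ^ (m + 2)) ^ j := by
    unfold Stair.alexander torusStair
    simp only [Nat.add_sub_cancel]
    congr 1
    · refine Finset.sum_congr rfl fun i hi => ?_
      rw [e i (Nat.lt_succ_iff.1 (Finset.mem_range.1 hi)), pow_mul]
    · rw [Finset.mul_sum]
      refine Finset.sum_congr rfl fun i hi => ?_
      rw [e i (le_of_lt (Finset.mem_range.1 hi)), ← pow_mul]
      ring
  have h2 := geom_sum_mul ((X : Polynomial ℤ) ^ (m + 1)) (m + 1)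
  have h3 := geom_sum_mul ((X : Polynomial ℤ) ^ (m + 2)) m
  unfold IsTorusAlexander
  rw [h1, sub_mul]
  have h4 : (∑ i ∈ Finset.range (m + 1), ((X : Polynomial ℤ) ^ (m + 1)) ^ i) *
      ((X ^ (m + 1) - 1) * (X ^ (m + 1 + 1) - 1)) =
      (((X : Polynomial ℤ) ^ (m + 1)) ^ (m + 1) - 1) * (X ^ (m + 2) - 1) := by
    rw [← mul_assoc, h2]
  have h5 : (X * ∑ j ∈ Finset.range m, ((X : Polynomial ℤ) ^ (m + 2)) ^ j) *
      ((X ^ (m + 1) - 1) * (X ^ (m + 1 + 1) - 1)) =
      X * (((X : Polynomial ℤ) ^ (m + 2)) ^ m - 1) * (X ^ (m + 1) - 1) := by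
    rw [← h3]; ring
  rw [h4, h5]
  ring

lemma torus2_alexander (m : ℕ) (hm : Odd m) :
    IsTorusAlexander 2 m (∑ i ∈ Finset.range m, (-X : Polynomial ℤ) ^ i) := by
  have h2 := geom_sum_mul (-X : Polynomial ℤ) m
  rw [hm.neg_pow] at h2
  unfold IsTorusAlexander
  calc (∑ i ∈ Finset.range m, (-X : Polynomial ℤ) ^ i) * ((X ^ 2 - 1) * (X ^ m - 1))
      = ((∑ i ∈ Finset.range m, (-X : Polynomial ℤ) ^ i) * (-X - 1)) *
        (-(X - 1) * (X ^ m - 1)) := by ring
    _ = _ := by rw [h2]; ring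

lemma cable_alexander (j : ℕ) : (cableStair j).alexander =
    (∑ i ∈ Finset.range (2 * j + 1), (-X : Polynomial ℤ) ^ i).comp (X ^ 2) *
      ∑ i ∈ Finset.range (4 * j + 1), (-X : Polynomial ℤ) ^ i := by
  have hne : (X ^ 4 - 1 : Polynomial ℤ) ≠ 0 := by
    have h := Polynomial.X_pow_sub_C_ne_zero (R := ℤ) (n := 4) (by norm_num) 1
    simpa using h
  refine mul_right_cancel₀ hne ?_
  have e : ∀ i, ∑ l ∈ Finset.range i, ((if l < j then 1 else 3) + (if l < j then 3 else 1)) =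
      4 * i := by
    intro i
    rw [Finset.sum_congr rfl (g := fun _ => 4)]
    · rw [Finset.sum_const, Finset.card_range, smul_eq_mul, mul_comm]
    · intro l _
      split_ifs <;> rfl
  have h1 : (cableStair j).alexander =
      ∑ i ∈ Finset.range (2 * j + 1), ((X : Polynomial ℤ) ^ 4) ^ i -
        (X * ∑ i ∈ Finset.range j, ((X : Polynomial ℤ) ^ 4) ^ i +
          X ^ (4 * j + 3) * ∑ i ∈ Finset.range j, ((X : Polynomial ℤ) ^ 4) ^ i) := by
    unfold Stair.alexander cableStair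
    simp only [e]
    congr 1
    · refine Finset.sum_congr rfl fun i _ => ?_
      rw [pow_mul]
    · rw [two_mul, Finset.sum_range_add]
      congr 1
      · rw [Finset.mul_sum]
        refine Finset.sum_congr rfl fun i hi => ?_
        rw [if_pos (Finset.mem_range.1 hi)]
        ring
      · rw [Finset.mul_sum]
        refine Finset.sum_congr rfl fun i _ => ?_
        rw [if_neg (by omega)]
        ring
  have h2 := geom_sum_mul ((X : Polynomial ℤ) ^ 4) (2 * j + 1)
  have h3 := geom_sum_mul ((X : Polynomial ℤ) ^ 4) j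
  have h4 := geom_sum_mul (-X : Polynomial ℤ) (4 * j + 1)
  have h5 := congrArg (fun f : Polynomial ℤ => f.comp (X ^ 2))
    (geom_sum_mul (-X : Polynomial ℤ) (2 * j + 1))
  simp only [mul_comp, sub_comp, neg_comp, X_comp, one_comp, pow_comp] at h5
  have o1 : Odd (4 * j + 1) := ⟨2 * j, by ring⟩
  have o2 : Odd (2 * j + 1) := ⟨j, by ring⟩
  rw [o1.neg_pow] at h4
  rw [o2.neg_pow] at h5
  have h6 : (cableStair j).alexander * (X ^ 4 - 1) =
      ((X ^ 4) ^ (2 * j + 1) - 1) - (X + X ^ (4 * j + 3)) * ((X ^ 4) ^ j - 1) := by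
    rw [h1, ← h2, ← h3]; ring
  have h7 : (∑ i ∈ Finset.range (2 * j + 1), (-X : Polynomial ℤ) ^ i).comp (X ^ 2) *
      (∑ i ∈ Finset.range (4 * j + 1), (-X : Polynomial ℤ) ^ i) * (X ^ 4 - 1) =
      (-(X ^ 2) ^ (2 * j + 1) - 1) * (-X ^ (4 * j + 1) - 1) * (X - 1) := by
    rw [← h4, ← h5]; ring
  rw [h6, h7]
  ring

end Pool.Agent.KnotFloer
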