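import Pool.Agent.KnotFloer.Ev

/-!
# The tower criterion for `K ⊗ P^∨` with `K` a staircase
-/

namespace Pool.Agent.KnotFloer

open MvPolynomial Matrix
open scoped Kronecker

lemma Cplx.D1_sq (C : Cplx) : C.D1 * C.D1 = 0 := by
  rw [Cplx.D1, ← Matrix.map_mul, C.D_sq]
  ext i j
  simp

/-- Parity: an entry of `D1` is nonzero only if the gradings drop by one modulo multiplication
by a monomial. -/
lemma Cplx.D1_okdeg (C : Cplx) {i j : C.ι} (h : C.D1 i j ≠ 0) :
    OKdeg (C.gw i - 1 - C.gw j) (C.gz i - 1 - C.gz j) :=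
  (C.D_homog i j).okdeg h

lemma Cplx.D1_tensor (C C' : Cplx) (i j : C.ι) (i' j' : C'.ι) :
    (C.tensor C').D1 (i, i') (j, j') =
      C.D1 i j * (if i' = j' then 1 else 0) + (if i = j then 1 else 0) * C'.D1 i' j' := by
  simp only [Cplx.D1, Cplx.tensor, Matrix.map_apply, Matrix.add_apply,
    Matrix.kroneckerMap_apply, map_add, map_mul, Matrix.one_apply]
  congr 2
  · split_ifs <;> simp
  · split_ifs <;> simp

lemma Cplx.D1_dual (C : Cplx) (i j : C.ι) : C.dual.D1 i j = C.D1 j i := rfl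

/-- Differential of `K ⊗ P^∨` in terms of matrices `P → K`. -/
lemma vecMul_tensor_dual (K P : Cplx) (F : Matrix P.ι K.ι (ZMod 2)) (x : K.ι) (p : P.ι) :
    ((fun y : (K.tensor P.dual).ι => F y.2 y.1) ᵥ* (K.tensor P.dual).D1) (x, p) =
      (F * K.D1) p x + (P.D1 * F) p x := by
  have h1 : ((fun y : (K.tensor P.dual).ι => F y.2 y.1) ᵥ* (K.tensor P.dual).D1) (x, p) =
      ∑ y : K.ι, ∑ q : P.ι, F q y *
        (K.D1 y x * (if q = p then 1 else 0) + (if y = x then 1 else 0) * P.D1 p q) := by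
    simp only [Matrix.vecMul, dotProduct]
    rw [← Fintype.sum_prod_type' (f := fun (y : K.ι) (q : P.ι) => F q y *
        (K.D1 y x * (if q = p then 1 else 0) + (if y = x then 1 else 0) * P.D1 p q))]
    refine Finset.sum_congr rfl fun y _ => ?_
    obtain ⟨y, q⟩ := y
    rw [Cplx.D1_tensor]
    rfl
  rw [h1, Matrix.mul_apply, Matrix.mul_apply]
  simp only [mul_add, Finset.sum_add_distrib]
  congr 1
  · refine Finset.sum_congr rfl fun y _ => ?_
    simp
  · rw [Finset.sum_comm]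
    refine Finset.sum_congr rfl fun q _ => ?_
    simp [mul_comm]

/-- A contraction of the complex `P` (at `U = V = 1`) onto the basis element `p0`; `A` is the
indicator of the basis elements which generate homology. -/
structure Contr (P : Cplx) (A : P.ι → ZMod 2) (p0 : P.ι) where
  h : Matrix P.ι P.ι (ZMod 2)
  eq : ∀ p q, (P.D1 * h + h * P.D1) p q =
    (if p = q then 1 else 0) + A p * (if q = p0 then 1 else 0)
  par : ∀ p q, h p q ≠ 0 → Even (P.gw q - P.gw p + 1) ∧ Even (P.gz q - P.gz p + 1)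

lemma z2_add_eq_zero {a b : ZMod 2} (h : a + b = 0) : a = b := by
  revert a b; decide

lemma z2_add_self (a : ZMod 2) : a + a = 0 := by
  revert a; decide

lemma even_of_okdeg {m n : ℤ} (h : OKdeg m n) : Even m ∧ Even n := by
  obtain ⟨a, b, rfl, rfl⟩ := h
  exact ⟨⟨-a, by ring⟩, ⟨-b, by ring⟩⟩

/-- If a cycle of `K ⊗ P^∨` restricts to zero on `p0`, then it is torsion. -/
lemma torsion_of_contr (K P : Cplx) (A : P.ι → ZMod 2) (p0 : P.ι) (hc : Contr P A p0)
    (m n : ℤ) (F : Matrix P.ι K.ι (ZMod 2))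
    (hF : (K.tensor P.dual).Supp m n (fun y => F y.2 y.1))
    (hcyc : (fun y : (K.tensor P.dual).ι => F y.2 y.1) ᵥ* (K.tensor P.dual).D1 = 0)
    (h0 : ∀ x, F p0 x = 0) :
    ∃ k : ℕ, ∃ w, (K.tensor P.dual).Supp (m - 2 * k + 1) (n - 2 * k + 1) w ∧
      w ᵥ* (K.tensor P.dual).D1 = fun y => F y.2 y.1 := by
  have hcyc' : F * K.D1 = P.D1 * F := by
    refine Matrix.ext fun p x => z2_add_eq_zero ?_
    rw [← vecMul_tensor_dual, hcyc]; rfl
  set G : Matrix P.ι K.ι (ZMod 2) := hc.h * F with hG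
  have hbd : (fun y : (K.tensor P.dual).ι => G y.2 y.1) ᵥ* (K.tensor P.dual).D1 =
      fun y => F y.2 y.1 := by
    funext ⟨x, p⟩
    rw [vecMul_tensor_dual, ← Matrix.add_apply]
    have h1 : G * K.D1 + P.D1 * G = (P.D1 * hc.h + hc.h * P.D1) * F := by
      rw [hG, Matrix.add_mul, Matrix.mul_assoc, hcyc', ← Matrix.mul_assoc, ← Matrix.mul_assoc,
        add_comm]
    rw [h1, Matrix.mul_apply]
    simp only [hc.eq, add_mul, Finset.sum_add_distrib]
    have h2 : ∑ q : P.ι, (if p = q then (1 : ZMod 2) else 0) * F q x = F p x := by simp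
    have h3 : ∑ q : P.ι, A p * (if q = p0 then (1 : ZMod 2) else 0) * F q x = 0 := by
      refine Finset.sum_eq_zero fun q _ => ?_
      split_ifs with h
      · rw [h, h0, mul_zero]
      · simp
    rw [h2, h3, add_zero]
  obtain ⟨k, hk⟩ := exists_supp (K.tensor P.dual) m n (fun y => G y.2 y.1) (by
    rintro ⟨x, p⟩ hne
    simp only [hG, Matrix.mul_apply] at hne
    obtain ⟨q, -, hq⟩ := Finset.exists_ne_zero_of_sum_ne_zero hne
    have hq1 : hc.h p q ≠ 0 := left_ne_zero_of_mul hq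
    have hq2 : F q x ≠ 0 := right_ne_zero_of_mul hq
    have h4 := even_of_okdeg (hF (x, q) hq2)
    have h5 := hc.par p q hq1
    simp only at h4 ⊢
    obtain ⟨⟨a, ha⟩, ⟨b, hb⟩⟩ := h4
    obtain ⟨⟨a', ha'⟩, ⟨b', hb'⟩⟩ := h5
    exact ⟨⟨a - a' + 1 + (P.gw p - P.gw p), by omega⟩, ⟨b - b' + 1, by omega⟩⟩)
  exact ⟨k, _, hk, hbd⟩

end Pool.Agent.KnotFloer
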