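import Mathlib

/-!
# Bigraded complexes over `F[U,V]` and the invariants `V_s`, `nu^+`, `Y_n`, `omega^+`

`F` is the field with two elements.  `U` has bidegree `(-2,0)` and `V` has bidegree `(0,-2)`;
the differential has bidegree `(-1,-1)`.  Maslov gradings are `(gr_w, gr_z)`, Alexander grading
`A = (gr_w - gr_z)/2`.
-/

namespace Pool.Agent.KnotFloer

open MvPolynomial Matrix
open scoped Kronecker

/-- The ring `F[U,V]`, where `F` is the field with two elements. -/
abbrev R : Type := MvPolynomial (Fin 2) (ZMod 2)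

/-- The variable `U`, of bidegree `(-2,0)`. -/
noncomputable def U : R := X 0

/-- The variable `V`, of bidegree `(0,-2)`. -/
noncomputable def V : R := X 1

/-- `f` is homogeneous of bidegree `(m,n)`: it is zero, or it is the monomial `U^a V^b` with
`(m,n) = (-2a,-2b)`.  (Over the field with two elements these are all the homogeneous
elements.) -/
def HomogR (m n : ℤ) (f : R) : Prop :=
  f = 0 ∨ ∃ a b : ℕ, f = U ^ a * V ^ b ∧ m = -2 * a ∧ n = -2 * b

/-- A finitely generated free bigraded chain complex over `F[U,V]`, given by a finite homogeneous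
basis `e_i` (`i : ι`) with bigradings `(gw i, gz i) = (gr_w, gr_z)(e_i)` and by the matrix `D` of
the differential: `∂ e_i = ∑ j, D i j • e_j`.  The differential has bidegree `(-1,-1)` and
squares to zero. -/
structure Cplx where
  /-- index set of the homogeneous basis -/
  ι : Type
  /-- the basis is finite -/
  fin : Fintype ι
  /-- decidable equality of the index set -/
  dec : DecidableEq ι
  /-- the grading `gr_w` of the basis elements -/
  gw : ι → ℤ
  /-- the grading `gr_z` of the basis elements -/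
  gz : ι → ℤ
  /-- the matrix of the differential -/
  D : Matrix ι ι R
  /-- the differential has bidegree `(-1,-1)` -/
  D_homog : ∀ i j, HomogR (gw i - 1 - gw j) (gz i - 1 - gz j) (D i j)
  /-- the differential squares to zero -/
  D_sq : D * D = 0

attribute [instance] Cplx.fin Cplx.dec

/-- The chain `∑ i, v i • e_i` is homogeneous of bigrading `(m,n)`. -/
def Cplx.IsHomog (C : Cplx) (m n : ℤ) (v : C.ι → R) : Prop :=
  ∀ i, HomogR (m - C.gw i) (n - C.gz i) (v i)

/-- There is a homogeneous class of grading `m` in `H_*(A_s(C))` which is not `U`-torsion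
(`U` acts as `UV`).  Here `A_s(C)` is the part of Alexander grading `s`, graded by `gr_w`, so that
its part of grading `m` consists of the chains of bigrading `(m, m - 2s)`; the class of a cycle
`v` is `U`-torsion if some `(UV)^k v` is a boundary in `A_s(C)`. -/
def Cplx.Tower (C : Cplx) (s m : ℤ) : Prop :=
  ∃ v : C.ι → R, C.IsHomog m (m - 2 * s) v ∧ v ᵥ* C.D = 0 ∧
    ∀ k : ℕ, ¬ ∃ w : C.ι → R,
      C.IsHomog (m - 2 * k + 1) (m - 2 * s - 2 * k + 1) w ∧ w ᵥ* C.D = (U * V) ^ k • v

/-- `V_s(C) = v`: the largest grading of a homogeneous non-`U`-torsion class in `H_*(A_s(C))`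
exists and equals `-2v`. -/
def Cplx.HasV (C : Cplx) (s v : ℤ) : Prop :=
  IsGreatest {m : ℤ | C.Tower s m} (-2 * v)

lemma HomogR.zero (m n : ℤ) : HomogR m n 0 := Or.inl rfl

lemma HomogR.one : HomogR 0 0 1 := Or.inr ⟨0, 0, by simp, by simp, by simp⟩

lemma HomogR.add {m n : ℤ} {f g : R} (hf : HomogR m n f) (hg : HomogR m n g) :
    HomogR m n (f + g) := by
  rcases hf with rfl | ⟨a, b, rfl, ha, hb⟩
  · simpa using hg
  rcases hg with rfl | ⟨a', b', rfl, ha', hb'⟩
  · rw [add_zero]
    exact Or.inr ⟨a, b, rfl, ha, hb⟩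
  · have h1 : a = a' := by omega
    have h2 : b = b' := by omega
    subst h1; subst h2
    left
    exact CharTwo.add_self_eq_zero _

lemma HomogR.mul {m n m' n' : ℤ} {f g : R} (hf : HomogR m n f) (hg : HomogR m' n' g) :
    HomogR (m + m') (n + n') (f * g) := by
  rcases hf with rfl | ⟨a, b, rfl, ha, hb⟩
  · left; simp
  rcases hg with rfl | ⟨a', b', rfl, ha', hb'⟩
  · left; simp
  · right
    refine ⟨a + a', b + b', by ring, ?_, ?_⟩ <;> push_cast <;> omega

lemma HomogR.congr {m n m' n' : ℤ} {f : R} (hf : HomogR m n f) (hm : m = m') (hn : n = n') :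
    HomogR m' n' f := by
  subst hm; subst hn; exact hf

lemma HomogR.sum {κ : Type*} (t : Finset κ) {m n : ℤ} {f : κ → R}
    (hf : ∀ i ∈ t, HomogR m n (f i)) : HomogR m n (∑ i ∈ t, f i) := by
  classical
  induction t using Finset.induction_on with
  | empty => simpa using HomogR.zero m n
  | insert a t ha ih =>
    rw [Finset.sum_insert ha]
    exact (hf a (Finset.mem_insert_self a t)).add
      (ih fun i hi => hf i (Finset.mem_insert_of_mem hi))

/-- The tensor product of two complexes over `F[U,V]`. -/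
@[reducible] noncomputable def Cplx.tensor (C C' : Cplx) : Cplx where
  ι := C.ι × C'.ι
  fin := inferInstance
  dec := inferInstance
  gw := fun p => C.gw p.1 + C'.gw p.2
  gz := fun p => C.gz p.1 + C'.gz p.2
  D := C.D ⊗ₖ (1 : Matrix C'.ι C'.ι R) + (1 : Matrix C.ι C.ι R) ⊗ₖ C'.D
  D_homog := by
    rintro ⟨i, i'⟩ ⟨j, j'⟩
    simp only [Matrix.add_apply, Matrix.kroneckerMap_apply]
    refine HomogR.add ?_ ?_
    · by_cases h : i' = j'
      · subst h
        simpa using (C.D_homog i j).congr (by ring) (by ring)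
      · simpa [Matrix.one_apply_ne h] using HomogR.zero _ _
    · by_cases h : i = j
      · subst h
        simpa using (C'.D_homog i' j').congr (by ring) (by ring)
      · simpa [Matrix.one_apply_ne h] using HomogR.zero _ _
  D_sq := by
    rw [Matrix.mul_add, Matrix.add_mul, Matrix.add_mul]
    simp only [← Matrix.mul_kronecker_mul, C.D_sq, C'.D_sq, Matrix.mul_one, Matrix.one_mul,
      Matrix.zero_kronecker, Matrix.kronecker_zero, zero_add, add_zero]
    ext i j
    simp only [Matrix.add_apply, Matrix.zero_apply]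
    exact CharTwo.add_self_eq_zero _

/-- The dual complex over `F[U,V]`. -/
@[reducible] noncomputable def Cplx.dual (C : Cplx) : Cplx where
  ι := C.ι
  fin := C.fin
  dec := C.dec
  gw := fun i => - C.gw i
  gz := fun i => - C.gz i
  D := C.Dᵀ
  D_homog := fun i j => (C.D_homog j i).congr (by ring) (by ring)
  D_sq := by rw [← Matrix.transpose_mul, C.D_sq, Matrix.transpose_zero]

/-- A bigraded chain homotopy equivalence between `C` and `C'`: chain maps `f : C → C'` and
`g : C' → C` of bidegree `(0,0)` and homotopies of bidegree `(1,1)`.  All maps are given by their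
matrices, acting on row vectors. -/
structure HtpyEquiv (C C' : Cplx) where
  /-- matrix of the chain map `C → C'` -/
  f : Matrix C.ι C'.ι R
  /-- matrix of the chain map `C' → C` -/
  g : Matrix C'.ι C.ι R
  /-- matrix of the homotopy on `C` -/
  H : Matrix C.ι C.ι R
  /-- matrix of the homotopy on `C'` -/
  H' : Matrix C'.ι C'.ι R
  f_homog : ∀ i j, HomogR (C.gw i - C'.gw j) (C.gz i - C'.gz j) (f i j)
  g_homog : ∀ i j, HomogR (C'.gw i - C.gw j) (C'.gz i - C.gz j) (g i j)
  H_homog : ∀ i j, HomogR (C.gw i + 1 - C.gw j) (C.gz i + 1 - C.gz j) (H i j)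
  H'_homog : ∀ i j, HomogR (C'.gw i + 1 - C'.gw j) (C'.gz i + 1 - C'.gz j) (H' i j)
  f_chain : C.D * f = f * C'.D
  g_chain : C'.D * g = g * C.D
  fg : f * g = 1 + (C.D * H + H * C.D)
  gf : g * f = 1 + (C'.D * H' + H' * C'.D)

/-- Data of a staircase: it has `n` odd generators `z_0, …, z_{n-1}` and `n+1` even generators
`x_0, …, x_n`, and `h j`, `v j` are the lengths of the horizontal and the vertical step at
`z_j`. -/
structure Stair where
  /-- the number of odd generators -/
  n : ℕ
  /-- `h j` is the length of the step from `z_j` to `x_j` -/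
  h : ℕ → ℕ
  /-- `v j` is the length of the step from `z_j` to `x_{j+1}` -/
  v : ℕ → ℕ
  h_pos : ∀ j < n, 0 < h j
  v_pos : ∀ j < n, 0 < v j

/-- The matrix of the differential of a staircase:
`∂ x_i = 0` and `∂ z_j = U^{h j} x_j + V^{v j} x_{j+1}`. -/
noncomputable def Stair.D (S : Stair) :
    Matrix (Fin (S.n + 1) ⊕ Fin S.n) (Fin (S.n + 1) ⊕ Fin S.n) R
  | Sum.inr j, Sum.inl i =>
      if (i : ℕ) = j then U ^ S.h j else if (i : ℕ) = j + 1 then V ^ S.v j else 0
  | Sum.inl _, _ => 0
  | Sum.inr _, Sum.inr _ => 0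

/-- The staircase complex: `x_i = Sum.inl i`, `z_j = Sum.inr j`,
`∂ x_i = 0`, `∂ z_j = U^{h j} x_j + V^{v j} x_{j+1}`, with the bigradings normalised by
`gr_w(x_0) = 0` and `gr_z(x_n) = 0`. -/
@[reducible] noncomputable def Stair.cplx (S : Stair) : Cplx where
  ι := Fin (S.n + 1) ⊕ Fin S.n
  fin := inferInstance
  dec := inferInstance
  gw := Sum.elim (fun i => -2 * ∑ l ∈ Finset.range i, (S.h l : ℤ))
    (fun j => 1 - 2 * ∑ l ∈ Finset.range (j + 1), (S.h l : ℤ))
  gz := Sum.elim (fun i => -2 * ∑ l ∈ Finset.Ico (i : ℕ) S.n, (S.v l : ℤ))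
    (fun j => 1 - 2 * ∑ l ∈ Finset.Ico (j : ℕ) S.n, (S.v l : ℤ))
  D := S.D
  D_homog := by
    rintro (i | j) (i' | j')
    · exact HomogR.zero _ _
    · exact HomogR.zero _ _
    · simp only [Stair.D, Sum.elim_inl, Sum.elim_inr]
      have hj : (j : ℕ) < S.n := j.2
      split_ifs with h1 h2
      · right
        refine ⟨S.h j, 0, by simp, ?_, ?_⟩
        · rw [h1, Finset.sum_range_succ]; ring
        · rw [h1]; simp
      · right
        refine ⟨0, S.v j, by simp, ?_, ?_⟩
        · rw [h2]; simp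
        · rw [h2, Finset.sum_eq_sum_Ico_succ_bot hj]; ring
      · exact HomogR.zero _ _
    · exact HomogR.zero _ _
  D_sq := by
    refine Matrix.ext fun a b => ?_
    change (∑ c : Fin (S.n + 1) ⊕ Fin S.n, S.D a c * S.D c b) = 0
    refine Finset.sum_eq_zero fun c _ => ?_
    rcases c with i' | j'
    · have h : S.D (Sum.inl i') b = 0 := by rcases b <;> rfl
      rw [h, mul_zero]
    · have h : S.D a (Sum.inr j') = 0 := by rcases a <;> rfl
      rw [h, zero_mul]

/-- The Alexander polynomial of a staircase, normalised to have constant term `1`: the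
alternating sum `∑ t^{e(x_i)} - ∑ t^{e(z_j)}`, where consecutive exponents
`e(x_0) = 0, e(z_0), e(x_1), e(z_1), …` differ by `h 0, v 0, h 1, v 1, …`. -/
noncomputable def Stair.alexander (S : Stair) : Polynomial ℤ :=
  ∑ i ∈ Finset.range (S.n + 1), Polynomial.X ^ (∑ l ∈ Finset.range i, (S.h l + S.v l)) -
    ∑ j ∈ Finset.range S.n, Polynomial.X ^ (∑ l ∈ Finset.range j, (S.h l + S.v l) + S.h j)

/-- The staircase `S_n` with all `2n` steps of length one:
`x_i` is `y_{-n+2i}`, of bigrading `(-2i, -2n+2i)`, and `z_j` is `y_{-n+2j+1}`,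
with `∂ y_{-n+2j+1} = U y_{-n+2j} + V y_{-n+2j+2}`. -/
def unitStair (n : ℕ) : Stair where
  n := n
  h := fun _ => 1
  v := fun _ => 1
  h_pos := fun _ _ => Nat.one_pos
  v_pos := fun _ _ => Nat.one_pos

/-- `nu^+(C) = n`: all `V_s(C)` with `s ≥ 0` are defined, and `n` is the least `s ≥ 0` with
`V_s(C) = 0`. -/
def Cplx.HasNuPlus (C : Cplx) (n : ℕ) : Prop :=
  (∀ s : ℕ, ∃ v : ℤ, C.HasV s v) ∧ IsLeast {s : ℕ | C.HasV s 0} n

/-- `Y_k(C) = v`, where `Y_k(C) = V_0(C ⊗ S_k^∨)`. -/
def Cplx.HasY (C : Cplx) (k : ℕ) (v : ℤ) : Prop :=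
  (C.tensor (unitStair k).cplx.dual).HasV 0 v

/-- `omega^+(C) = n`: all `Y_k(C)` with `k ≥ 0` are defined, and `n` is the least `k ≥ 0` with
`Y_k(C) = 0`. -/
def Cplx.HasOmegaPlus (C : Cplx) (n : ℕ) : Prop :=
  (∀ k : ℕ, ∃ v : ℤ, C.HasY k v) ∧ IsLeast {k : ℕ | C.HasY k 0} n

end Pool.Agent.KnotFloer
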