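import Pool.Agent.KnotFloer.Defs

/-!
# Reduction of the tower condition to linear algebra over the field with two elements
-/

namespace Pool.Agent.KnotFloer

open MvPolynomial Matrix
open scoped Kronecker

/-- Evaluation at `U = V = 1`. -/
noncomputable def ev : R →+* ZMod 2 := MvPolynomial.eval (fun _ => 1)

lemma ev_U : ev U = 1 := by simp [ev, U]

lemma ev_V : ev V = 1 := by simp [ev, V]

lemma ev_mono (a b : ℕ) : ev (U ^ a * V ^ b) = 1 := by simp [ev_U, ev_V]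

lemma HomogR.eq_of_ev {m n : ℤ} {f g : R} (hf : HomogR m n f) (hg : HomogR m n g)
    (h : ev f = ev g) : f = g := by
  rcases hf with rfl | ⟨a, b, rfl, ha, hb⟩
  · rcases hg with rfl | ⟨a', b', rfl, ha', hb'⟩
    · rfl
    · rw [ev_mono, map_zero] at h
      exact absurd h (by decide)
  · rcases hg with rfl | ⟨a', b', rfl, ha', hb'⟩
    · rw [ev_mono, map_zero] at h
      exact absurd h (by decide)
    · have h1 : a = a' := by omega
      have h2 : b = b' := by omega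
      rw [h1, h2]

/-- `(m,n)` is the bidegree of a monomial. -/
def OKdeg (m n : ℤ) : Prop := ∃ a b : ℕ, m = -2 * a ∧ n = -2 * b

lemma HomogR.okdeg {m n : ℤ} {f : R} (hf : HomogR m n f) (h : ev f ≠ 0) : OKdeg m n := by
  rcases hf with rfl | ⟨a, b, rfl, ha, hb⟩
  · simp at h
  · exact ⟨a, b, ha, hb⟩

lemma z2_eq_one : ∀ c : ZMod 2, c ≠ 0 → c = 1 := by decide

lemma exists_homogR {m n : ℤ} (c : ZMod 2) (h : c ≠ 0 → OKdeg m n) :
    ∃ f : R, HomogR m n f ∧ ev f = c := by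
  by_cases hc : c = 0
  · exact ⟨0, HomogR.zero _ _, by simp [hc]⟩
  · obtain ⟨a, b, ha, hb⟩ := h hc
    refine ⟨U ^ a * V ^ b, Or.inr ⟨a, b, rfl, ha, hb⟩, ?_⟩
    rw [ev_mono, z2_eq_one c hc]

/-- The matrix of the differential at `U = V = 1`. -/
noncomputable def Cplx.D1 (C : Cplx) : Matrix C.ι C.ι (ZMod 2) := C.D.map ev

/-- The vector `c` is supported on basis elements which have a multiple of bigrading
`(m,n)`. -/
def Cplx.Supp (C : Cplx) (m n : ℤ) (c : C.ι → ZMod 2) : Prop :=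
  ∀ i, c i ≠ 0 → OKdeg (m - C.gw i) (n - C.gz i)

variable {C : Cplx}

lemma IsHomog.supp {m n : ℤ} {v : C.ι → R} (hv : C.IsHomog m n v) :
    C.Supp m n (fun i => ev (v i)) := fun i hi => (hv i).okdeg hi

lemma Supp.exists_homog {m n : ℤ} {c : C.ι → ZMod 2} (hc : C.Supp m n c) :
    ∃ v : C.ι → R, C.IsHomog m n v ∧ (fun i => ev (v i)) = c := by
  choose v hv1 hv2 using fun i => exists_homogR (m := m - C.gw i) (n := n - C.gz i) (c i) (hc i)
  exact ⟨v, hv1, funext hv2⟩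

lemma IsHomog.vecMul {m n : ℤ} {v : C.ι → R} (hv : C.IsHomog m n v) :
    C.IsHomog (m - 1) (n - 1) (v ᵥ* C.D) := by
  intro j
  simp only [Matrix.vecMul, dotProduct]
  refine HomogR.sum _ fun i _ => ?_
  exact ((hv i).mul (C.D_homog i j)).congr (by ring) (by ring)

lemma ev_vecMul (v : C.ι → R) :
    (fun j => ev ((v ᵥ* C.D) j)) = (fun i => ev (v i)) ᵥ* C.D1 := by
  funext j
  simp only [Matrix.vecMul, dotProduct, map_sum, map_mul, Cplx.D1, Matrix.map_apply]

lemma IsHomog.ext {m n : ℤ} {v w : C.ι → R} (hv : C.IsHomog m n v) (hw : C.IsHomog m n w)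
    (h : (fun i => ev (v i)) = fun i => ev (w i)) : v = w :=
  funext fun i => (hv i).eq_of_ev (hw i) (congrFun h i)

lemma IsHomog.smul_UV {m n : ℤ} {v : C.ι → R} (hv : C.IsHomog m n v) (k : ℕ) :
    C.IsHomog (m - 2 * k) (n - 2 * k) ((U * V) ^ k • v) := by
  intro i
  have h1 : HomogR (-2 * (k : ℤ)) (-2 * (k : ℤ)) ((U * V) ^ k) :=
    Or.inr ⟨k, k, by rw [mul_pow], rfl, rfl⟩
  simp only [Pi.smul_apply, smul_eq_mul]
  exact (h1.mul (hv i)).congr (by ring) (by ring)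

lemma tower_iff (s m : ℤ) : C.Tower s m ↔
    ∃ c : C.ι → ZMod 2, C.Supp m (m - 2 * s) c ∧ c ᵥ* C.D1 = 0 ∧
      ∀ k : ℕ, ¬ ∃ w : C.ι → ZMod 2,
        C.Supp (m - 2 * k + 1) (m - 2 * s - 2 * k + 1) w ∧ w ᵥ* C.D1 = c := by
  constructor
  · rintro ⟨v, hv, hv0, hk⟩
    refine ⟨fun i => ev (v i), IsHomog.supp hv, ?_, ?_⟩
    · rw [← ev_vecMul, hv0]; funext i; simp
    · rintro k ⟨w, hw, hw1⟩
      obtain ⟨w', hw', hw'1⟩ := Supp.exists_homog hw
      refine hk k ⟨w', hw', ?_⟩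
      have h1 := IsHomog.vecMul hw'
      have h2 := IsHomog.smul_UV hv k
      refine IsHomog.ext (m := m - 2 * k) (n := m - 2 * s - 2 * k) ?_ h2 ?_
      · intro i
        exact (h1 i).congr (by ring) (by ring)
      · rw [ev_vecMul, hw'1, hw1]
        funext i
        simp [ev_U, ev_V]
  · rintro ⟨c, hc, hc0, hk⟩
    obtain ⟨v, hv, hv1⟩ := Supp.exists_homog hc
    refine ⟨v, hv, ?_, ?_⟩
    · refine IsHomog.ext (IsHomog.vecMul hv) (fun i => HomogR.zero _ _) ?_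
      rw [ev_vecMul, hv1, hc0]; funext i; simp
    · rintro k ⟨w, hw, hw1⟩
      refine hk k ⟨fun i => ev (w i), IsHomog.supp hw, ?_⟩
      rw [← ev_vecMul, hw1, ← hv1]
      funext i
      simp [ev_U, ev_V]

/-- The tower condition only depends on the basis up to relabelling and on the matrix of the
differential at `U = V = 1`. -/
lemma tower_of_equiv {C C' : Cplx} (e : C.ι ≃ C'.ι) (hw : ∀ i, C'.gw (e i) = C.gw i)
    (hz : ∀ i, C'.gz (e i) = C.gz i) (hD : ∀ i j, C'.D1 (e i) (e j) = C.D1 i j) (s m : ℤ)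
    (h : C.Tower s m) : C'.Tower s m := by
  rw [tower_iff] at h ⊢
  obtain ⟨c, hc, hc0, hk⟩ := h
  have key : ∀ d : C.ι → ZMod 2, (d ∘ e.symm) ᵥ* C'.D1 = (d ᵥ* C.D1) ∘ e.symm := by
    intro d
    funext j
    simp only [Matrix.vecMul, dotProduct, Function.comp]
    rw [← e.sum_comp]
    refine Finset.sum_congr rfl fun i _ => ?_
    rw [e.symm_apply_apply]
    congr 1
    conv_lhs => rw [← e.apply_symm_apply j]
    exact hD _ _
  refine ⟨c ∘ e.symm, ?_, ?_, ?_⟩
  · intro i hi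
    have := hc (e.symm i) hi
    rw [← hw, ← hz, e.apply_symm_apply] at this
    exact this
  · rw [key, hc0]; rfl
  · rintro k ⟨w, hw', hw1⟩
    refine hk k ⟨w ∘ e, ?_, ?_⟩
    · intro i hi
      have := hw' (e i) hi
      rw [hw, hz] at this
      exact this
    · have h2 := key (w ∘ e)
      have h3 : (w ∘ e) ∘ e.symm = w := by funext i; simp
      rw [h3, hw1] at h2
      funext i
      have := congrFun h2 (e i)
      simpa using this.symm

lemma tower_equiv_iff {C C' : Cplx} (e : C.ι ≃ C'.ι) (hw : ∀ i, C'.gw (e i) = C.gw i)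
    (hz : ∀ i, C'.gz (e i) = C.gz i) (hD : ∀ i j, C'.D1 (e i) (e j) = C.D1 i j) (s m : ℤ) :
    C.Tower s m ↔ C'.Tower s m := by
  refine ⟨tower_of_equiv e hw hz hD s m, tower_of_equiv e.symm ?_ ?_ ?_ s m⟩
  · intro i; rw [← hw, e.apply_symm_apply]
  · intro i; rw [← hz, e.apply_symm_apply]
  · intro i j; rw [← hD, e.apply_symm_apply, e.apply_symm_apply]

/-- A vector supported in the right parities is supported in bidegree `(m-2k+1, n-2k+1)` for
large `k`. -/
lemma exists_supp (C : Cplx) (m n : ℤ) (c : C.ι → ZMod 2)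
    (h : ∀ i, c i ≠ 0 → Even (m + 1 - C.gw i) ∧ Even (n + 1 - C.gz i)) :
    ∃ k : ℕ, C.Supp (m - 2 * k + 1) (n - 2 * k + 1) c := by
  let g : C.ι → ℕ := fun i => (m + 1 - C.gw i).natAbs + (n + 1 - C.gz i).natAbs
  refine ⟨∑ i, g i, ?_⟩
  intro i hi
  obtain ⟨⟨a, ha⟩, ⟨b, hb⟩⟩ := h i hi
  have hle : g i ≤ ∑ i, g i := Finset.single_le_sum (f := g) (fun _ _ => Nat.zero_le _)
    (Finset.mem_univ i)
  have hle' : (g i : ℤ) ≤ ((∑ i, g i : ℕ) : ℤ) := by exact_mod_cast hle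
  set N : ℕ := ∑ i, g i with hN
  have h1 : (g i : ℤ) = |m + 1 - C.gw i| + |n + 1 - C.gz i| := by
    simp only [g]
    push_cast
    rfl
  have h2 := le_abs_self (m + 1 - C.gw i)
  have h3 := le_abs_self (n + 1 - C.gz i)
  have h4 := abs_nonneg (m + 1 - C.gw i)
  have h5 := abs_nonneg (n + 1 - C.gz i)
  refine ⟨((N : ℤ) - a).toNat, ((N : ℤ) - b).toNat, ?_, ?_⟩
  · rw [Int.toNat_of_nonneg (by omega)]; omega
  · rw [Int.toNat_of_nonneg (by omega)]; omega

end Pool.Agent.KnotFloer
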