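import Pool.Agent.KnotFloer.Tensor

/-!
# The family `T(8r,8r+1) # -T(2,16r^2-2r+1)_{2,32r^2-4r+1}`
-/

namespace Pool.Agent.KnotFloer

open MvPolynomial Matrix
open scoped Kronecker

/-- The staircase of the torus knot `T(p,p+1)`: steps `1, p-1, 2, p-2, …, p-1, 1`. -/
def torusStair (p : ℕ) : Stair where
  n := p - 1
  h := fun j => j + 1
  v := fun j => p - 1 - j
  h_pos := fun _ _ => Nat.succ_pos _
  v_pos := fun _ hj => Nat.sub_pos_of_lt hj

/-- The staircase of the cable `T(2,2j+1)_{2,4j+1}`: steps `1,3` repeated `j` times, then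
`3,1` repeated `j` times. -/
def cableStair (j : ℕ) : Stair where
  n := 2 * j
  h := fun i => if i < j then 1 else 3
  v := fun i => if i < j then 3 else 1
  h_pos := fun i _ => by split_ifs <;> norm_num
  v_pos := fun i _ => by split_ifs <;> norm_num

lemma sum_torus_h (i : ℕ) : -2 * ∑ l ∈ Finset.range i, (((l + 1 : ℕ)) : ℤ) = -(i * (i + 1)) := by
  induction i with
  | zero => simp
  | succ i ih =>
    rw [Finset.sum_range_succ, mul_add, ih]
    push_cast
    ring

lemma sum_torus_v (n i : ℕ) (hi : i ≤ n) :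
    -2 * ∑ l ∈ Finset.Ico i n, ((n - l : ℕ) : ℤ) = -(((n : ℤ) - i) * (n - i + 1)) := by
  obtain ⟨d, rfl⟩ := Nat.exists_eq_add_of_le hi
  induction d generalizing i with
  | zero => simp
  | succ d ih =>
    rw [Finset.sum_eq_sum_Ico_succ_bot (by omega), mul_add]
    have h1 := ih (i + 1) (by omega)
    have h2 : i + 1 + d = i + (d + 1) := by omega
    rw [h2] at h1
    rw [h1]
    have h3 : i + (d + 1) - i = d + 1 := by omega
    rw [h3]
    push_cast
    ring

lemma sum_cable_h (j i : ℕ) : -2 * ∑ l ∈ Finset.range i, (((if l < j then 1 else 3 : ℕ)) : ℤ) =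
    if i ≤ j then -2 * (i : ℤ) else -2 * (3 * i - 2 * j) := by
  induction i with
  | zero => simp
  | succ i ih =>
    rw [Finset.sum_range_succ, mul_add, ih]
    split_ifs <;> first | (exfalso; omega) | (push_cast; omega)

lemma sum_cable_v (j i : ℕ) (hi : i ≤ 2 * j) :
    -2 * ∑ l ∈ Finset.Ico i (2 * j), (((if l < j then 3 else 1 : ℕ)) : ℤ) =
    if i ≤ j then -2 * (4 * j - 3 * i : ℤ) else -2 * (2 * j - i) := by
  obtain ⟨d, hd⟩ := Nat.exists_eq_add_of_le hi
  induction d generalizing i with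
  | zero =>
    have : i = 2 * j := by omega
    subst this
    simp only [Finset.Ico_self, Finset.sum_empty, mul_zero]
    split_ifs <;> omega
  | succ d ih =>
    rw [Finset.sum_eq_sum_Ico_succ_bot (by omega), mul_add, ih (i + 1) (by omega) (by omega)]
    split_ifs <;> first | (exfalso; omega) | (push_cast; omega)

/-- Arithmetic criterion for the family: with `T_k = k(k+1)/2`. -/
def Good (N : ℤ) (x y : ℤ) : Prop :=
  ∃ k : ℤ, 0 ≤ k ∧ k ≤ N ∧ k * (k + 1) ≤ 2 * x ∧ (N - k) * (N - k + 1) ≤ 2 * y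

lemma Good.symm {N x y : ℤ} (h : Good N x y) : Good N y x := by
  obtain ⟨k, h0, h1, h2, h3⟩ := h
  exact ⟨N - k, by omega, by omega, h3, by
    have : N - (N - k) = k := by ring
    rw [this]; exact h2⟩

lemma exists_tri (x : ℤ) (hx : 0 ≤ x) :
    ∃ k : ℤ, 0 ≤ k ∧ k * (k + 1) ≤ 2 * x ∧ 2 * x + 2 ≤ (k + 1) * (k + 2) := by
  obtain ⟨n, rfl⟩ := Int.eq_ofNat_of_zero_le hx
  induction n with
  | zero => exact ⟨0, le_refl _, by norm_num, by norm_num⟩
  | succ n ih =>
    obtain ⟨k, h0, h1, h2⟩ := ih (by positivity)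
    by_cases h : 2 * ((n : ℤ) + 1) + 2 ≤ (k + 1) * (k + 2)
    · exact ⟨k, h0, by push_cast; linarith, by push_cast; linarith⟩
    · refine ⟨k + 1, by omega, ?_, ?_⟩
      · push_cast
        push Not at h
        obtain ⟨c, hc⟩ := Int.even_mul_succ_self (k + 1)
        have h3 : (k + 1) * (k + 2) = c + c := by rw [← hc]; ring
        have h4 : (k + 1) * (k + 1 + 1) = c + c := by rw [← hc]
        rw [h3] at h h2
        rw [h4]
        omega
      · push_cast
        nlinarith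

lemma tri_mono {a b : ℤ} (ha : 0 ≤ a) (h : a ≤ b) : a * (a + 1) ≤ b * (b + 1) := by
  nlinarith

lemma tri_lt {a b : ℤ} (hb : 0 ≤ b) (h : a * (a + 1) < b * (b + 1)) : a < b := by
  by_contra hcon
  push Not at hcon
  have := tri_mono hb hcon
  omega

/-- Upper bound for `nu^+`, first half. -/
lemma good_nu1 (r i : ℤ) (hr : 1 ≤ r) (hi : 0 ≤ i) (hij : i ≤ 8 * r ^ 2 - r) :
    Good (8 * r - 1) i (4 * (8 * r ^ 2 - r) - 3 * i + (4 * r - 1)) := by
  obtain ⟨k, h0, h1, h2⟩ := exists_tri i hi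
  have hk : k < 4 * r := by
    refine tri_lt (by omega) ?_
    nlinarith
  refine ⟨k, h0, by omega, h1, ?_⟩
  by_cases h3 : k = 4 * r - 1
  · subst h3
    nlinarith
  · have h4 : k + 2 ≤ 4 * r := by omega
    nlinarith [mul_nonneg (sub_nonneg.2 h4) (by positivity : (0 : ℤ) ≤ 2 * k + 1)]

/-- Upper bound for `nu^+`, second half. -/
lemma good_nu2 (r i : ℤ) (hr : 1 ≤ r) (hi : 0 ≤ i) (hij : i ≤ 8 * r ^ 2 - r) :
    Good (8 * r - 1) (i + (4 * r - 1)) (4 * (8 * r ^ 2 - r) - 3 * i) := by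
  obtain ⟨k, h0, h1, h2⟩ := exists_tri (i + (4 * r - 1)) (by omega)
  have hk : k < 4 * r + 1 := by
    refine tri_lt (by omega) ?_
    nlinarith
  refine ⟨k, h0, by omega, h1, ?_⟩
  by_cases h3 : k = 4 * r
  · subst h3
    nlinarith
  · have h4 : k + 1 ≤ 4 * r := by omega
    nlinarith [mul_nonneg (sub_nonneg.2 h4) (by positivity : (0 : ℤ) ≤ 2 * k + 3)]

/-- Upper bound for `omega^+`. -/
lemma good_om (r i u : ℤ) (hr : 1 ≤ r) (hi : 0 ≤ i) (hij : i ≤ 8 * r ^ 2 - r) (hu : 0 ≤ u)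
    (hu' : u ≤ 6 * r - 1) :
    Good (8 * r - 1) (i + u) (4 * (8 * r ^ 2 - r) - 3 * i + (6 * r - 1 - u)) := by
  obtain ⟨k, h0, h1, h2⟩ := exists_tri (i + u) (by omega)
  have hk : k < 4 * r + 1 := by
    refine tri_lt (by omega) ?_
    nlinarith
  refine ⟨k, h0, by omega, h1, ?_⟩
  by_cases h3 : k = 4 * r
  · subst h3
    nlinarith
  · by_cases h4 : k = 4 * r - 1
    · subst h4
      nlinarith
    · have h5 : k + 2 ≤ 4 * r := by omega
      nlinarith [mul_nonneg (sub_nonneg.2 h5) (by positivity : (0 : ℤ) ≤ 2 * k + 1)]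

/-- Lower bounds. -/
lemma not_good (r x y : ℤ) (hr : 1 ≤ r) (hx : x ≤ 8 * r ^ 2 + 2 * r - 1)
    (hy : y ≤ 8 * r ^ 2 + 2 * r - 1) : ¬ Good (8 * r - 1) x y := by
  rintro ⟨k, h0, h1, h2, h3⟩
  have e1 : k < 4 * r := by
    refine tri_lt (by omega) ?_
    nlinarith
  have e2 : 8 * r - 1 - k < 4 * r := by
    refine tri_lt (by omega) ?_
    nlinarith
  omega

lemma torus_gwx (p i : ℕ) : (torusStair p).gwx i = -((i : ℤ) * (i + 1)) :=
  sum_torus_h i

lemma torus_gzx (p i : ℕ) (hi : i ≤ p - 1) : (torusStair p).gzx i =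
    -((((p - 1 : ℕ) : ℤ) - i) * (((p - 1 : ℕ) : ℤ) - i + 1)) :=
  sum_torus_v (p - 1) i hi

lemma cable_gwx (j i : ℕ) : (cableStair j).gwx i =
    if i ≤ j then -2 * (i : ℤ) else -2 * (3 * i - 2 * j) :=
  sum_cable_h j i

lemma cable_gzx (j i : ℕ) (hi : i ≤ 2 * j) : (cableStair j).gzx i =
    if i ≤ j then -2 * (4 * j - 3 * i : ℤ) else -2 * (2 * j - i) :=
  sum_cable_v j i hi

lemma good_iff (p : ℕ) (hp : 1 ≤ p) (x y : ℤ) : Good (p - 1) x y ↔
    ∃ k ≤ (torusStair p).n, -2 * x ≤ (torusStair p).gwx k ∧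
      -2 * y ≤ (torusStair p).gzx k := by
  have e : (((p - 1 : ℕ)) : ℤ) = (p : ℤ) - 1 := by
    rw [Nat.cast_sub hp]; simp
  constructor
  · rintro ⟨k, h0, h1, h2, h3⟩
    have hk : ((k.toNat : ℕ) : ℤ) = k := Int.toNat_of_nonneg h0
    have hk' : k.toNat ≤ p - 1 := by omega
    refine ⟨k.toNat, hk', ?_, ?_⟩
    · rw [torus_gwx, hk]
      linarith
    · rw [torus_gzx _ _ hk', e, hk]
      linarith
  · rintro ⟨i, hi, h1, h2⟩
    have hi' : i ≤ p - 1 := hi
    rw [torus_gwx] at h1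
    rw [torus_gzx _ _ hi', e] at h2
    exact ⟨(i : ℕ), by positivity, by omega, by linarith, by linarith⟩

/-- The complex of `T(8r,8r+1) # -T(2,2j+1)_{2,4j+1}`, `j = 8r^2-r`. -/
noncomputable abbrev famCplx (r : ℕ) : Cplx :=
  (torusStair (8 * r)).cplx.tensor (cableStair (8 * r ^ 2 - r)).cplx.dual

lemma cast_j (r : ℕ) : ((8 * r ^ 2 - r : ℕ) : ℤ) = 8 * (r : ℤ) ^ 2 - r := by
  have : r ≤ 8 * r ^ 2 := by nlinarith
  rw [Nat.cast_sub this]
  push_cast
  ring

lemma cast_8r (r : ℕ) : ((8 * r : ℕ) : ℤ) - 1 = 8 * (r : ℤ) - 1 := by push_cast; ring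

lemma fam_tower_iff (r : ℕ) (hr : 1 ≤ r) (s : ℤ) : (famCplx r).Tower s 0 ↔
    ∀ i : ℤ, 0 ≤ i → i ≤ 8 * (r : ℤ) ^ 2 - r →
      Good (8 * r - 1) i (4 * (8 * (r : ℤ) ^ 2 - r) - 3 * i + s) ∧
      Good (8 * r - 1) (4 * (8 * (r : ℤ) ^ 2 - r) - 3 * i) (i + s) := by
  rw [stair_crit]
  have hj := cast_j r
  generalize 8 * r ^ 2 - r = j at *
  rw [← hj]
  constructor
  · rintro ⟨-, h⟩ i hi hij
    obtain ⟨n, rfl⟩ := Int.eq_ofNat_of_zero_le hi
    have hn : n ≤ j := by exact_mod_cast hij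
    constructor
    · obtain ⟨k, hk, hk1, hk2⟩ := h n (show n ≤ 2 * j by omega)
      rw [cable_gwx, if_pos hn] at hk1
      rw [cable_gzx _ _ (by omega), if_pos hn] at hk2
      rw [← cast_8r, good_iff _ (by omega)]
      exact ⟨k, hk, by linarith, by linarith⟩
    · obtain ⟨k, hk, hk1, hk2⟩ := h (2 * j - n) (show 2 * j - n ≤ 2 * j by omega)
      rw [cable_gwx] at hk1
      rw [cable_gzx _ _ (by omega)] at hk2
      rw [← cast_8r, good_iff _ (by omega)]
      have e : ((2 * j - n : ℕ) : ℤ) = 2 * j - n := by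
        rw [Nat.cast_sub (by omega)]; push_cast; ring
      rw [e] at hk1 hk2
      refine ⟨k, hk, ?_, ?_⟩
      · split_ifs at hk1 with h1
        · have : n = j := by omega
          subst this
          linarith
        · linarith
      · split_ifs at hk2 with h1
        · have : n = j := by omega
          subst this
          linarith
        · linarith
  · intro h
    refine ⟨⟨0, rfl⟩, ?_⟩
    intro i hi
    have hi' : i ≤ 2 * j := hi
    rw [cable_gwx, cable_gzx _ _ hi']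
    by_cases hij : i ≤ j
    · have h1 := (h i (by positivity) (by exact_mod_cast hij)).1
      rw [← cast_8r, good_iff _ (by omega)] at h1
      obtain ⟨k, hk, hk1, hk2⟩ := h1
      rw [if_pos hij, if_pos hij]
      exact ⟨k, hk, by linarith, by linarith⟩
    · have h1 := (h (2 * j - i) (by omega) (by omega)).2
      rw [← cast_8r, good_iff _ (by omega)] at h1
      obtain ⟨k, hk, hk1, hk2⟩ := h1
      rw [if_neg hij, if_neg hij]
      exact ⟨k, hk, by linarith, by linarith⟩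

lemma fam_tensor_tower_iff (r : ℕ) (hr : 1 ≤ r) (n : ℕ) :
    ((famCplx r).tensor (unitStair n).cplx.dual).Tower 0 0 ↔
    ∀ i : ℤ, 0 ≤ i → i ≤ 8 * (r : ℤ) ^ 2 - r → ∀ u : ℤ, 0 ≤ u → u ≤ n →
      Good (8 * r - 1) (i + u) (4 * (8 * (r : ℤ) ^ 2 - r) - 3 * i + (n - u)) ∧
      Good (8 * r - 1) (4 * (8 * (r : ℤ) ^ 2 - r) - 3 * i + u) (i + (n - u)) := by
  rw [stair_crit₂]
  have hj := cast_j r
  generalize 8 * r ^ 2 - r = j at *
  rw [← hj]
  constructor
  · rintro ⟨-, h⟩ i hi hij u hu hun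
    obtain ⟨i, rfl⟩ := Int.eq_ofNat_of_zero_le hi
    obtain ⟨u, rfl⟩ := Int.eq_ofNat_of_zero_le hu
    have hij' : i ≤ j := by exact_mod_cast hij
    have hun' : u ≤ n := by exact_mod_cast hun
    constructor
    · obtain ⟨k, hk, hk1, hk2⟩ := h i (show i ≤ 2 * j by omega) u hun'
      rw [cable_gwx, if_pos hij', unitStair_gwx] at hk1
      rw [cable_gzx _ _ (by omega), if_pos hij', unitStair_gzx _ _ hun'] at hk2
      rw [← cast_8r, good_iff _ (by omega)]
      exact ⟨k, hk, by linarith, by linarith⟩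
    · obtain ⟨k, hk, hk1, hk2⟩ := h (2 * j - i) (show 2 * j - i ≤ 2 * j by omega) u hun'
      rw [cable_gwx, unitStair_gwx] at hk1
      rw [cable_gzx _ _ (by omega), unitStair_gzx _ _ hun'] at hk2
      rw [← cast_8r, good_iff _ (by omega)]
      have e : ((2 * j - i : ℕ) : ℤ) = 2 * j - i := by
        rw [Nat.cast_sub (by omega)]; push_cast; ring
      rw [e] at hk1 hk2
      refine ⟨k, hk, ?_, ?_⟩
      · split_ifs at hk1 with h1
        · have : i = j := by omega
          subst this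
          linarith
        · linarith
      · split_ifs at hk2 with h1
        · have : i = j := by omega
          subst this
          linarith
        · linarith
  · intro h
    refine ⟨⟨0, rfl⟩, ?_⟩
    intro i hi u hu
    have hi' : i ≤ 2 * j := hi
    have hu' : u ≤ n := hu
    rw [cable_gwx, cable_gzx _ _ hi', unitStair_gwx, unitStair_gzx _ _ hu']
    by_cases hij : i ≤ j
    · have h1 := (h i (by positivity) (by exact_mod_cast hij) u (by positivity)
        (by exact_mod_cast hu')).1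
      rw [← cast_8r, good_iff _ (by omega)] at h1
      obtain ⟨k, hk, hk1, hk2⟩ := h1
      rw [if_pos hij, if_pos hij]
      exact ⟨k, hk, by linarith, by linarith⟩
    · have h1 := (h (2 * j - i) (by omega) (by omega) u (by positivity)
        (by exact_mod_cast hu')).2
      rw [← cast_8r, good_iff _ (by omega)] at h1
      obtain ⟨k, hk, hk1, hk2⟩ := h1
      rw [if_neg hij, if_neg hij]
      exact ⟨k, hk, by linarith, by linarith⟩

lemma gwx_nonpos (S : Stair) (i : ℕ) : S.gwx i ≤ 0 := by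
  have : 0 ≤ ∑ l ∈ Finset.range i, (S.h l : ℤ) := Finset.sum_nonneg fun _ _ => by positivity
  unfold Stair.gwx
  linarith

lemma gwx_zero (S : Stair) : S.gwx 0 = 0 := by simp [Stair.gwx]

lemma tower_le_zero (K L : Stair) (s m : ℤ) (h : (K.cplx.tensor L.cplx.dual).Tower s m) :
    m ≤ 0 := by
  rw [stair_crit] at h
  obtain ⟨k, -, hk, -⟩ := h.2 0 (Nat.zero_le _)
  have := gwx_nonpos K k
  rw [gwx_zero] at hk
  linarith

lemma tower_le_zero₂ (K L M : Stair) (s m : ℤ)
    (h : ((K.cplx.tensor L.cplx.dual).tensor M.cplx.dual).Tower s m) : m ≤ 0 := by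
  rw [stair_crit₂] at h
  obtain ⟨k, -, hk, -⟩ := h.2 0 (Nat.zero_le _) 0 (Nat.zero_le _)
  have := gwx_nonpos K k
  rw [gwx_zero, gwx_zero] at hk
  linarith

lemma gzx_nonpos (S : Stair) (i : ℕ) : S.gzx i ≤ 0 := by
  have : 0 ≤ ∑ l ∈ Finset.Ico i S.n, (S.v l : ℤ) := Finset.sum_nonneg fun _ _ => by positivity
  unfold Stair.gzx
  linarith

lemma even_gzx (S : Stair) (i : ℕ) : Even (S.gzx i) :=
  ⟨-∑ l ∈ Finset.Ico i S.n, (S.v l : ℤ), by unfold Stair.gzx; ring⟩

lemma exists_hasV_of (C : Cplx) (s : ℤ) (h1 : ∀ m, C.Tower s m → Even m)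
    (h2 : ∀ m, C.Tower s m → m ≤ 0) (h3 : ∃ m, C.Tower s m) : ∃ v, C.HasV s v := by
  obtain ⟨g, hg, hg'⟩ := Int.exists_greatest_of_bdd ⟨0, h2⟩ h3
  obtain ⟨c, hc⟩ := h1 g hg
  refine ⟨-c, ?_, ?_⟩
  · have : -2 * -c = g := by omega
    rw [this]
    exact hg
  · intro m hm
    have := hg' m hm
    omega

lemma exists_hasV (K L : Stair) (s : ℤ) : ∃ v, (K.cplx.tensor L.cplx.dual).HasV s v := by
  refine exists_hasV_of _ s (fun m hm => ?_) (fun m hm => tower_le_zero K L s m hm) ?_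
  · rw [stair_crit] at hm
    exact hm.1
  · obtain ⟨g, hg⟩ := even_gzx K 0
    have hg0 := gzx_nonpos K 0
    refine ⟨-2 * (|g| + |s|), ?_⟩
    rw [stair_crit]
    refine ⟨⟨-(|g| + |s|), by ring⟩, fun i _ => ⟨0, Nat.zero_le _, ?_, ?_⟩⟩
    · have h1 := gwx_nonpos L i
      have h2 := abs_nonneg g
      have h3 := abs_nonneg s
      rw [gwx_zero]
      linarith
    · have h1 := gzx_nonpos L i
      have h2 := neg_abs_le g
      have h3 := neg_abs_le s
      rw [hg]
      linarith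

lemma exists_hasV₂ (K L M : Stair) (s : ℤ) :
    ∃ v, ((K.cplx.tensor L.cplx.dual).tensor M.cplx.dual).HasV s v := by
  refine exists_hasV_of _ s (fun m hm => ?_) (fun m hm => tower_le_zero₂ K L M s m hm) ?_
  · rw [stair_crit₂] at hm
    exact hm.1
  · obtain ⟨g, hg⟩ := even_gzx K 0
    have hg0 := gzx_nonpos K 0
    refine ⟨-2 * (|g| + |s|), ?_⟩
    rw [stair_crit₂]
    refine ⟨⟨-(|g| + |s|), by ring⟩, fun i _ u _ => ⟨0, Nat.zero_le _, ?_, ?_⟩⟩
    · have h1 := gwx_nonpos L i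
      have h1' := gwx_nonpos M u
      have h2 := abs_nonneg g
      have h3 := abs_nonneg s
      rw [gwx_zero]
      linarith
    · have h1 := gzx_nonpos L i
      have h1' := gzx_nonpos M u
      have h2 := neg_abs_le g
      have h3 := neg_abs_le s
      rw [hg]
      linarith

/-- `nu^+` of the family. -/
theorem fam_nuPlus (r : ℕ) (hr : 1 ≤ r) : (famCplx r).HasNuPlus (4 * r - 1) := by
  have hr' : (1 : ℤ) ≤ r := by exact_mod_cast hr
  refine ⟨fun s => exists_hasV _ _ _, ?_⟩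
  constructor
  · refine ⟨?_, ?_⟩
    · change (famCplx r).Tower _ _
      rw [mul_zero, fam_tower_iff r hr]
      intro i hi hij
      have e : ((4 * r - 1 : ℕ) : ℤ) = 4 * r - 1 := by
        rw [Nat.cast_sub (by omega)]; push_cast; ring
      rw [e]
      exact ⟨good_nu1 r i hr' hi hij, (good_nu2 r i hr' hi hij).symm⟩
    · intro m hm
      have := tower_le_zero _ _ _ _ hm
      linarith
  · intro s hs
    by_contra hcon
    push Not at hcon
    have h1 : (famCplx r).Tower s (-2 * 0) := hs.1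
    rw [mul_zero, fam_tower_iff r hr] at h1
    have h2 := (h1 (8 * (r : ℤ) ^ 2 - r - (r - 1)) (by nlinarith) (by linarith)).2
    refine not_good r _ _ hr' ?_ ?_ h2
    · nlinarith
    · have h3 : (s : ℤ) ≤ 4 * r - 2 := by omega
      nlinarith

/-- `omega^+` of the family. -/
theorem fam_omegaPlus (r : ℕ) (hr : 1 ≤ r) : (famCplx r).HasOmegaPlus (6 * r - 1) := by
  have hr' : (1 : ℤ) ≤ r := by exact_mod_cast hr
  refine ⟨fun s => exists_hasV₂ _ _ _ _, ?_⟩
  constructor
  · refine ⟨?_, ?_⟩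
    · change Cplx.Tower _ _ _
      rw [mul_zero, fam_tensor_tower_iff r hr]
      intro i hi hij u hu hun
      have e : ((6 * r - 1 : ℕ) : ℤ) = 6 * r - 1 := by
        rw [Nat.cast_sub (by omega)]; push_cast; ring
      rw [e] at hun ⊢
      refine ⟨good_om r i u hr' hi hij hu hun, ?_⟩
      have h1 := (good_om r i (6 * r - 1 - u) hr' hi hij (by linarith) (by linarith)).symm
      have e2 : (6 * (r : ℤ) - 1 - (6 * r - 1 - u)) = u := by ring
      rw [e2] at h1
      exact h1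
    · intro m hm
      have := tower_le_zero₂ _ _ _ _ _ hm
      linarith
  · intro n hn
    by_contra hcon
    push Not at hcon
    have h1 : Cplx.Tower _ 0 (-2 * 0) := hn.1
    rw [mul_zero, fam_tensor_tower_iff r hr] at h1
    have h3 : (n : ℤ) ≤ 6 * r - 2 := by omega
    have h4 : ((n / 2 : ℕ) : ℤ) ≤ 3 * r - 1 := by omega
    have h2 := (h1 (8 * (r : ℤ) ^ 2 - r) (by nlinarith) (le_refl _) ((n / 2 : ℕ) : ℤ)
      (by positivity) (by omega)).1
    refine not_good r _ _ hr' ?_ ?_ h2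
    · linarith
    · have h5 : (n : ℤ) - ((n / 2 : ℕ) : ℤ) ≤ 3 * r - 1 := by omega
      linarith

end Pool.Agent.KnotFloer
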