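import Pool.Agent.KnotFloer.Crit

/-!
# Staircases and the tower criterion
-/

namespace Pool.Agent.KnotFloer

open MvPolynomial Matrix
open scoped Kronecker

lemma Stair.D1_xx (S : Stair) (i : Fin (S.n + 1)) (b : Fin (S.n + 1) ⊕ Fin S.n) :
    S.cplx.D1 (Sum.inl i) b = 0 := by
  rcases b with b | b <;> simp [Cplx.D1, Stair.D]

lemma Stair.D1_z (S : Stair) (a : Fin (S.n + 1) ⊕ Fin S.n) (j : Fin S.n) :
    S.cplx.D1 a (Sum.inr j) = 0 := by
  rcases a with b | b <;> simp [Cplx.D1, Stair.D]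

lemma Stair.D1_zx (S : Stair) (j : Fin S.n) (i : Fin (S.n + 1)) :
    S.cplx.D1 (Sum.inr j) (Sum.inl i) =
      if (i : ℕ) = j then 1 else if (i : ℕ) = j + 1 then 1 else 0 := by
  simp only [Cplx.D1, Stair.D, Matrix.map_apply]
  split_ifs <;> simp [ev_U, ev_V]

lemma stair_sum (n : ℕ) (φ : ℕ → ZMod 2) (i : ℕ) (hi : i ≤ n) :
    (∑ j : Fin n, φ j * (if i = (j : ℕ) then 1 else if i = (j : ℕ) + 1 then 1 else 0)) =
      (if i < n then φ i else 0) + (if 1 ≤ i then φ (i - 1) else 0) := by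
  rw [Fin.sum_univ_eq_sum_range
    (fun j => φ j * (if i = j then 1 else if i = j + 1 then 1 else 0)) n]
  have h1 : ∀ j : ℕ, φ j * (if i = j then (1 : ZMod 2) else if i = j + 1 then 1 else 0) =
      (if i = j then φ j else 0) + (if i = j + 1 then φ j else 0) := by
    intro j
    by_cases h : i = j
    · subst h; simp
    · by_cases h' : i = j + 1
      · simp [h']
      · simp [h, h']
  simp only [h1, Finset.sum_add_distrib]
  congr 1
  · rw [Finset.sum_ite_eq]
    simp
  · rcases i with _ | i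
    · simp
    · simp only [Nat.add_right_cancel_iff, Nat.add_sub_cancel, Nat.le_add_left, if_true]
      rw [Finset.sum_ite_eq, if_pos]
      simpa using hi

/-- Indicator of the even generators of a staircase. -/
def Stair.A (S : Stair) : S.cplx.ι → ZMod 2 := Sum.elim (fun _ => 1) (fun _ => 0)

lemma Stair.gw_mono (S : Stair) {i j : ℕ} (h : i ≤ j) :
    -2 * ∑ l ∈ Finset.range j, (S.h l : ℤ) ≤ -2 * ∑ l ∈ Finset.range i, (S.h l : ℤ) := by
  have : ∑ l ∈ Finset.range i, (S.h l : ℤ) ≤ ∑ l ∈ Finset.range j, (S.h l : ℤ) :=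
    Finset.sum_le_sum_of_subset_of_nonneg (Finset.range_mono h) (fun _ _ _ => by positivity)
  linarith

lemma Stair.gz_mono (S : Stair) {i j : ℕ} (h : i ≤ j) :
    -2 * ∑ l ∈ Finset.Ico i S.n, (S.v l : ℤ) ≤ -2 * ∑ l ∈ Finset.Ico j S.n, (S.v l : ℤ) := by
  have : ∑ l ∈ Finset.Ico j S.n, (S.v l : ℤ) ≤ ∑ l ∈ Finset.Ico i S.n, (S.v l : ℤ) :=
    Finset.sum_le_sum_of_subset_of_nonneg (Finset.Ico_subset_Ico_left h)
      (fun _ _ _ => by positivity)
  linarith

/-- `0/1` indicator with values in the field with two elements. -/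
def ind (p : Prop) [Decidable p] : ZMod 2 := if p then 1 else 0

/-- The homotopy of the contraction of a staircase. -/
def Stair.hmat (S : Stair) (i0 : Fin (S.n + 1)) :
    Matrix (Fin (S.n + 1) ⊕ Fin S.n) (Fin (S.n + 1) ⊕ Fin S.n) (ZMod 2)
  | Sum.inl i, Sum.inr j => ind ((j : ℕ) < i) + ind ((j : ℕ) < i0)
  | Sum.inl _, Sum.inl _ => 0
  | Sum.inr _, _ => 0

lemma Stair.hmat_xz (S : Stair) (i0 i : Fin (S.n + 1)) (j : Fin S.n) :
    S.hmat i0 (Sum.inl i) (Sum.inr j) = ind ((j : ℕ) < i) + ind ((j : ℕ) < i0) := rfl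

lemma Stair.hmat_xx (S : Stair) (i0 i i' : Fin (S.n + 1)) :
    S.hmat i0 (Sum.inl i) (Sum.inl i') = 0 := rfl

lemma Stair.hmat_z (S : Stair) (i0 : Fin (S.n + 1)) (j : Fin S.n) (b) :
    S.hmat i0 (Sum.inr j) b = 0 := by rcases b <;> rfl

/-- Contraction of a staircase onto its even generator number `i0`. -/
def Stair.contr (S : Stair) (i0 : Fin (S.n + 1)) : Contr S.cplx S.A (Sum.inl i0) where
  h := S.hmat i0
  eq := by
    rintro (i | j) (i' | j')
    · rw [Matrix.add_apply, Matrix.mul_apply, Matrix.mul_apply, Fintype.sum_sum_type,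
        Fintype.sum_sum_type]
      simp only [Stair.D1_xx, Finset.sum_const_zero, zero_add, Stair.D1_zx, add_zero,
        Stair.hmat_xz, Stair.hmat_xx, Stair.hmat_z, mul_zero]
      rw [stair_sum S.n (fun j => ind (j < (i : ℕ)) + ind (j < (i0 : ℕ))) i' (by omega)]
      have h1 := i.2
      have h2 := i0.2
      have h3 := i'.2
      simp only [Sum.inl.injEq, Fin.ext_iff, Stair.A, Sum.elim_inl, one_mul, ind]
      split_ifs <;> first | (exfalso; omega) | decide
    · rw [Matrix.add_apply, Matrix.mul_apply, Matrix.mul_apply, Fintype.sum_sum_type,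
        Fintype.sum_sum_type]
      simp [Stair.D1_xx, Stair.D1_z, Stair.A, Stair.hmat_xz, Stair.hmat_xx, Stair.hmat_z]
    · rw [Matrix.add_apply, Matrix.mul_apply, Matrix.mul_apply, Fintype.sum_sum_type,
        Fintype.sum_sum_type]
      simp [Stair.D1_xx, Stair.D1_z, Stair.A, Stair.hmat_xz, Stair.hmat_xx, Stair.hmat_z]
    · rw [Matrix.add_apply, Matrix.mul_apply, Matrix.mul_apply, Fintype.sum_sum_type,
        Fintype.sum_sum_type]
      simp only [Stair.D1_zx, Stair.D1_z, mul_zero, Finset.sum_const_zero, add_zero,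
        Stair.hmat_xz, Stair.hmat_z]
      have h1 := i0.2
      have h2 := j.2
      have h3 : ∀ x : Fin (S.n + 1), (if (x : ℕ) = j then (1 : ZMod 2) else
          if (x : ℕ) = j + 1 then 1 else 0) * (ind ((j' : ℕ) < x) + ind ((j' : ℕ) < i0)) =
          (if x = j.castSucc then (ind ((j' : ℕ) < x) + ind ((j' : ℕ) < i0)) else 0) +
          (if x = j.succ then (ind ((j' : ℕ) < x) + ind ((j' : ℕ) < i0)) else 0) := by
        intro x
        simp only [Fin.ext_iff, Fin.val_castSucc, Fin.val_succ]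
        by_cases h4 : (x : ℕ) = j
        · simp [h4]
        · by_cases h5 : (x : ℕ) = j + 1
          · simp [h5]
          · simp [h4, h5]
      rw [Finset.sum_congr rfl fun x _ => h3 x, Finset.sum_add_distrib, Finset.sum_ite_eq',
        Finset.sum_ite_eq']
      simp only [Finset.mem_univ, if_true, Fin.val_castSucc, Fin.val_succ, Sum.inr.injEq,
        Fin.ext_iff, Stair.A, Sum.elim_inr, ind, reduceCtorEq, if_false]
      split_ifs <;> first | (exfalso; omega) | decide
  par := by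
    rintro (i | j) (i' | j') h
    · exact absurd rfl h
    · simp only [Sum.elim_inl, Sum.elim_inr]
      refine ⟨⟨1 - ∑ l ∈ Finset.range (j' + 1), (S.h l : ℤ) +
          ∑ l ∈ Finset.range i, (S.h l : ℤ), by ring⟩,
        ⟨1 - ∑ l ∈ Finset.Ico (j' : ℕ) S.n, (S.v l : ℤ) +
          ∑ l ∈ Finset.Ico (i : ℕ) S.n, (S.v l : ℤ), by ring⟩⟩
    · exact absurd rfl h
    · exact absurd rfl h

/-- Properties of a complex `P` with distinguished even basis elements (those with `A p ≠ 0`)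
which allow to decide the existence of maps into a staircase. -/
structure PData (P : Cplx) (A : P.ι → ZMod 2) : Prop where
  DA : ∀ q, ∑ p, P.D1 q p * A p = 0
  row : ∀ p, A p ≠ 0 → ∀ q, P.D1 p q = 0
  contr : ∀ p0, A p0 ≠ 0 → Nonempty (Contr P A p0)
  even : ∀ p, A p ≠ 0 → Even (P.gw p) ∧ Even (P.gz p)
  ne : ∃ p, A p ≠ 0

lemma Stair.sum_D1_z (S : Stair) (j : Fin S.n) :
    ∑ i : Fin (S.n + 1), S.cplx.D1 (Sum.inr j) (Sum.inl i) = 0 := by
  have h3 : ∀ x : Fin (S.n + 1), S.cplx.D1 (Sum.inr j) (Sum.inl x) =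
      (if x = j.castSucc then 1 else 0) + (if x = j.succ then 1 else 0) := by
    intro x
    rw [Stair.D1_zx]
    simp only [Fin.ext_iff, Fin.val_castSucc, Fin.val_succ]
    by_cases h4 : (x : ℕ) = j
    · simp [h4]
    · by_cases h5 : (x : ℕ) = j + 1
      · simp [h5]
      · simp [h4, h5]
  rw [Finset.sum_congr rfl fun x _ => h3 x, Finset.sum_add_distrib, Finset.sum_ite_eq',
    Finset.sum_ite_eq']
  simp only [Finset.mem_univ, if_true]
  decide

lemma Stair.A_ne {S : Stair} {p : S.cplx.ι} (h : S.A p ≠ 0) : ∃ i, p = Sum.inl i := by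
  rcases p with i | j
  · exact ⟨i, rfl⟩
  · exact absurd rfl h

lemma Stair.pdata (S : Stair) : PData S.cplx S.A where
  DA := by
    rintro (i | j)
    · refine Finset.sum_eq_zero fun p _ => ?_
      rw [Stair.D1_xx, zero_mul]
    · rw [Fintype.sum_sum_type]
      simp only [Stair.A, Sum.elim_inl, Sum.elim_inr, mul_one, mul_zero, Finset.sum_const_zero,
        add_zero]
      exact S.sum_D1_z j
  row := by
    intro p hp q
    obtain ⟨i, rfl⟩ := Stair.A_ne hp
    exact S.D1_xx i q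
  contr := by
    intro p0 hp
    obtain ⟨i, rfl⟩ := Stair.A_ne hp
    exact ⟨S.contr i⟩
  even := by
    intro p hp
    obtain ⟨i, rfl⟩ := Stair.A_ne hp
    exact ⟨⟨-∑ l ∈ Finset.range i, (S.h l : ℤ), by simp only [Sum.elim_inl]; ring⟩,
      ⟨-∑ l ∈ Finset.Ico (i : ℕ) S.n, (S.v l : ℤ), by simp only [Sum.elim_inl]; ring⟩⟩
  ne := ⟨Sum.inl 0, one_ne_zero⟩

lemma okdeg_of_even {m n : ℤ} (hm : Even m) (hn : Even n) (hm' : m ≤ 0) (hn' : n ≤ 0) :
    OKdeg m n := by
  obtain ⟨a, ha⟩ := hm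
  obtain ⟨b, hb⟩ := hn
  exact ⟨(-a).toNat, (-b).toNat, by rw [Int.toNat_of_nonneg (by omega)]; omega,
    by rw [Int.toNat_of_nonneg (by omega)]; omega⟩

/-- The necessary condition. -/
lemma tower_only_if (K : Stair) (P : Cplx) (A : P.ι → ZMod 2) (hP : PData P A) (s m : ℤ)
    (h : (K.cplx.tensor P.dual).Tower s m) (p : P.ι) (hp : A p ≠ 0) :
    Even m ∧ ∃ i : Fin (K.n + 1), m ≤ K.cplx.gw (Sum.inl i) - P.gw p ∧
      m - 2 * s ≤ K.cplx.gz (Sum.inl i) - P.gz p := by
  rw [tower_iff] at h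
  obtain ⟨c, hc, hc0, hk⟩ := h
  by_contra hcon
  set F : Matrix P.ι K.cplx.ι (ZMod 2) := fun q x => c (x, q) with hF
  have hFc : (fun y : (K.cplx.tensor P.dual).ι => F y.2 y.1) = c := rfl
  have hrow : ∀ x, (F * K.cplx.D1) p x = 0 := by
    intro x
    have h1 := vecMul_tensor_dual K.cplx P F x p
    rw [hFc, hc0] at h1
    have h2 : (P.D1 * F) p x = 0 := by
      rw [Matrix.mul_apply]
      exact Finset.sum_eq_zero fun q _ => by rw [hP.row p hp, zero_mul]
    rw [h2, add_zero] at h1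
    exact h1.symm
  have hx : ∀ i, F p (Sum.inl i) = 0 := by
    intro i
    by_contra hne
    apply hcon
    obtain ⟨a, b, ha, hb⟩ := hc (Sum.inl i, p) hne
    obtain ⟨⟨e1, he1⟩, ⟨e2, he2⟩⟩ := hP.even p hp
    have h1 : (K.cplx.tensor P.dual).gw (Sum.inl i, p) = K.cplx.gw (Sum.inl i) - P.gw p := by
      simp only [sub_eq_add_neg]
    have h2 : (K.cplx.tensor P.dual).gz (Sum.inl i, p) = K.cplx.gz (Sum.inl i) - P.gz p := by
      simp only [sub_eq_add_neg]
    rw [h1] at ha
    rw [h2] at hb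
    have h3 : K.cplx.gw (Sum.inl i) = -2 * ∑ l ∈ Finset.range i, (K.h l : ℤ) := rfl
    refine ⟨?_, i, by omega, by omega⟩
    rw [h3] at ha
    exact ⟨-a - ∑ l ∈ Finset.range i, (K.h l : ℤ) - e1, by omega⟩
  have hz : ∀ j : ℕ, ∀ hj : j < K.n, F p (Sum.inr ⟨j, hj⟩) = 0 := by
    intro j
    induction j with
    | zero =>
      intro hj
      have h1 := hrow (Sum.inl ⟨0, by omega⟩)
      rw [Matrix.mul_apply, Fintype.sum_sum_type] at h1
      simp only [hx, zero_mul, Finset.sum_const_zero, zero_add, Stair.D1_zx] at h1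
      rw [Finset.sum_eq_single (⟨0, hj⟩ : Fin K.n)] at h1
      · simpa using h1
      · intro b _ hb
        have : (0 : ℕ) ≠ b := fun h => hb (Fin.ext h.symm)
        simp [this]
      · simp
    | succ j ih =>
      intro hj
      have ih' := ih (by omega)
      have h1 := hrow (Sum.inl ⟨j + 1, by omega⟩)
      rw [Matrix.mul_apply, Fintype.sum_sum_type] at h1
      simp only [hx, zero_mul, Finset.sum_const_zero, zero_add, Stair.D1_zx] at h1
      rw [Finset.sum_eq_single (⟨j + 1, hj⟩ : Fin K.n)] at h1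
      · simpa using h1
      · intro b _ hb
        have h2 : j + 1 ≠ (b : ℕ) := fun h => hb (Fin.ext h.symm)
        by_cases h3 : j = b
        · have : b = ⟨j, by omega⟩ := Fin.ext h3.symm
          rw [this, ih', zero_mul]
        · simp [h2, h3]
      · simp
  have h0 : ∀ x, F p x = 0 := by
    rintro (i | j)
    · exact hx i
    · exact hz j j.2
  obtain ⟨hcontr⟩ := hP.contr p hp
  obtain ⟨k, w, hw, hw'⟩ := torsion_of_contr K.cplx P A p hcontr m (m - 2 * s) F hc hc0 h0
  exact hk k ⟨w, hw, hw'⟩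

/-- The sufficient condition. -/
lemma tower_if (K : Stair) (P : Cplx) (A : P.ι → ZMod 2) (hP : PData P A) (s m : ℤ)
    (hm : Even m)
    (h : ∀ p, A p ≠ 0 → ∃ i : Fin (K.n + 1), m ≤ K.cplx.gw (Sum.inl i) - P.gw p ∧
      m - 2 * s ≤ K.cplx.gz (Sum.inl i) - P.gz p) :
    (K.cplx.tensor P.dual).Tower s m := by
  classical
  have h' : ∀ p, ∃ i : Fin (K.n + 1), A p ≠ 0 → m ≤ K.cplx.gw (Sum.inl i) - P.gw p ∧
      m - 2 * s ≤ K.cplx.gz (Sum.inl i) - P.gz p := by
    intro p
    by_cases hp : A p = 0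
    · exact ⟨0, fun h => absurd hp h⟩
    · obtain ⟨i, hi⟩ := h p hp
      exact ⟨i, fun _ => hi⟩
  choose idx hidx using h'
  set φ : P.ι → ℕ → ZMod 2 := fun q j => ∑ p, P.D1 q p * A p * ind (j < (idx p : ℕ)) with hφ
  set F : Matrix P.ι K.cplx.ι (ZMod 2) := fun q x => Sum.elim
    (fun i : Fin (K.n + 1) => A q * ind ((i : ℕ) = idx q)) (fun j : Fin K.n => φ q j) x with hF
  have hFx : ∀ q i, F q (Sum.inl i) = A q * ind ((i : ℕ) = idx q) := fun _ _ => rfl
  have hFz : ∀ q (j : Fin K.n), F q (Sum.inr j) = φ q j := fun _ _ => rfl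
  have hgwx : ∀ i : Fin (K.n + 1), K.cplx.gw (Sum.inl i) =
      -2 * ∑ l ∈ Finset.range i, (K.h l : ℤ) := fun _ => rfl
  have hgzx : ∀ i : Fin (K.n + 1), K.cplx.gz (Sum.inl i) =
      -2 * ∑ l ∈ Finset.Ico (i : ℕ) K.n, (K.v l : ℤ) := fun _ => rfl
  have hgwz : ∀ j : Fin K.n, K.cplx.gw (Sum.inr j) =
      1 - 2 * ∑ l ∈ Finset.range (j + 1), (K.h l : ℤ) := fun _ => rfl
  have hgzz : ∀ j : Fin K.n, K.cplx.gz (Sum.inr j) =
      1 - 2 * ∑ l ∈ Finset.Ico (j : ℕ) K.n, (K.v l : ℤ) := fun _ => rfl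
  rw [tower_iff]
  refine ⟨fun y => F y.2 y.1, ?_, ?_, ?_⟩
  · -- support
    rintro ⟨x, q⟩ hne
    have e1 : (K.cplx.tensor P.dual).gw (x, q) = K.cplx.gw x - P.gw q := by
      simp only [sub_eq_add_neg]
    have e2 : (K.cplx.tensor P.dual).gz (x, q) = K.cplx.gz x - P.gz q := by
      simp only [sub_eq_add_neg]
    rw [e1, e2]
    obtain ⟨m', hm'⟩ := hm
    rcases x with i | j
    · have h1 : A q * ind ((i : ℕ) = idx q) ≠ 0 := hne
      have h2 : A q ≠ 0 := left_ne_zero_of_mul h1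
      have h3 : ind ((i : ℕ) = idx q) ≠ 0 := right_ne_zero_of_mul h1
      have h4 : i = idx q := by
        by_contra hcon
        apply h3
        have : ¬ ((i : ℕ) = idx q) := fun h => hcon (Fin.ext h)
        simp [ind, this]
      have h5 := hidx q h2
      obtain ⟨⟨a, ha⟩, ⟨b, hb⟩⟩ := hP.even q h2
      rw [← h4] at h5
      refine okdeg_of_even ?_ ?_ (by omega) (by omega)
      · rw [hgwx]
        exact ⟨m' + ∑ l ∈ Finset.range i, (K.h l : ℤ) + a, by omega⟩
      · rw [hgzx]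
        exact ⟨m' - s + ∑ l ∈ Finset.Ico (i : ℕ) K.n, (K.v l : ℤ) + b, by omega⟩
    · have h1 : ∑ p, P.D1 q p * A p * ind ((j : ℕ) < (idx p : ℕ)) ≠ 0 := hne
      obtain ⟨p1, -, hp1⟩ := Finset.exists_ne_zero_of_sum_ne_zero h1
      have hp1D : P.D1 q p1 ≠ 0 := left_ne_zero_of_mul (left_ne_zero_of_mul hp1)
      have hp1A : A p1 ≠ 0 := right_ne_zero_of_mul (left_ne_zero_of_mul hp1)
      have hp1j : (j : ℕ) < idx p1 := by
        by_contra hcon
        exact (right_ne_zero_of_mul hp1) (by simp [ind, hcon])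
      have h2 : ∃ p2, P.D1 q p2 ≠ 0 ∧ A p2 ≠ 0 ∧ (idx p2 : ℕ) ≤ j := by
        by_contra hcon
        push Not at hcon
        apply h1
        rw [← hP.DA q]
        refine Finset.sum_congr rfl fun p _ => ?_
        by_cases hD : P.D1 q p = 0
        · simp [hD]
        by_cases hA : A p = 0
        · simp [hA]
        · simp [ind, hcon p hD hA]
      obtain ⟨p2, hp2D, hp2A, hp2j⟩ := h2
      obtain ⟨a1, b1, ha1, hb1⟩ := P.D1_okdeg hp1D
      obtain ⟨a2, b2, ha2, hb2⟩ := P.D1_okdeg hp2D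
      obtain ⟨⟨a, ha⟩, ⟨b, hb⟩⟩ := hP.even p1 hp1A
      obtain ⟨⟨a', ha'⟩, ⟨b', hb'⟩⟩ := hP.even p2 hp2A
      have h5 := (hidx p1 hp1A).1
      have h6 := (hidx p2 hp2A).2
      rw [hgwx] at h5
      rw [hgzx] at h6
      have h7 := K.gw_mono (i := (j : ℕ) + 1) (j := (idx p1 : ℕ)) (by omega)
      have h8 := K.gz_mono (i := (idx p2 : ℕ)) (j := (j : ℕ)) (by omega)
      refine okdeg_of_even ?_ ?_ ?_ ?_
      · rw [hgwz]
        exact ⟨m' + ∑ l ∈ Finset.range (j + 1), (K.h l : ℤ) + a - a1, by omega⟩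
      · rw [hgzz]
        exact ⟨m' - s + ∑ l ∈ Finset.Ico (j : ℕ) K.n, (K.v l : ℤ) + b' - b2, by omega⟩
      · rw [hgwz]; omega
      · rw [hgzz]; omega
  · -- cycle
    funext ⟨x, q⟩
    rw [vecMul_tensor_dual]
    rcases x with i | j
    · have h1 : (F * K.cplx.D1) q (Sum.inl i) = ∑ p, P.D1 q p * A p *
          ((if (i : ℕ) < K.n then ind ((i : ℕ) < (idx p : ℕ)) else 0) +
            (if 1 ≤ (i : ℕ) then ind ((i : ℕ) - 1 < (idx p : ℕ)) else 0)) := by
        rw [Matrix.mul_apply, Fintype.sum_sum_type]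
        simp only [Stair.D1_xx, mul_zero, Finset.sum_const_zero, zero_add, Stair.D1_zx, hFz]
        rw [stair_sum K.n (φ q) i (by omega)]
        simp only [mul_add, Finset.sum_add_distrib]
        congr 1
        · split_ifs
          · rfl
          · simp
        · split_ifs
          · rfl
          · simp
      have h2 : (P.D1 * F) q (Sum.inl i) = ∑ p, P.D1 q p * A p * ind ((i : ℕ) = idx p) := by
        rw [Matrix.mul_apply]
        refine Finset.sum_congr rfl fun p _ => ?_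
        rw [hFx, mul_assoc]
      rw [h1, h2, ← Finset.sum_add_distrib]
      have h3 : ∀ p, P.D1 q p * A p *
          ((if (i : ℕ) < K.n then ind ((i : ℕ) < (idx p : ℕ)) else 0) +
            (if 1 ≤ (i : ℕ) then ind ((i : ℕ) - 1 < (idx p : ℕ)) else 0)) +
            P.D1 q p * A p * ind ((i : ℕ) = idx p) =
            P.D1 q p * A p * ind ((i : ℕ) = 0) := by
        intro p
        rw [← mul_add]
        congr 1
        have h4 := i.2
        have h5 := (idx p).2
        simp only [ind]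
        split_ifs <;> first | (exfalso; omega) | decide
      rw [Finset.sum_congr rfl fun p _ => h3 p, ← Finset.sum_mul, hP.DA, zero_mul]
      rfl
    · have h1 : (F * K.cplx.D1) q (Sum.inr j) = 0 := by
        rw [Matrix.mul_apply]
        exact Finset.sum_eq_zero fun y _ => by rw [Stair.D1_z, mul_zero]
      have h2 : (P.D1 * F) q (Sum.inr j) =
          ∑ p, (P.D1 * P.D1) q p * (A p * ind ((j : ℕ) < (idx p : ℕ))) := by
        rw [Matrix.mul_apply]
        simp only [hFz, hφ, Finset.mul_sum, Matrix.mul_apply, Finset.sum_mul]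
        rw [Finset.sum_comm]
        refine Finset.sum_congr rfl fun p _ => Finset.sum_congr rfl fun q' _ => ?_
        ring
      rw [h1, h2, P.D1_sq]
      simp
  · -- not torsion
    rintro k ⟨w, -, hw⟩
    obtain ⟨p0, hp0⟩ := hP.ne
    set G : Matrix P.ι K.cplx.ι (ZMod 2) := fun q x => w (x, q) with hG
    have hGw : (fun y : (K.cplx.tensor P.dual).ι => G y.2 y.1) = w := rfl
    have h1 : ∀ x, (G * K.cplx.D1) p0 x = F p0 x := by
      intro x
      have h2 := vecMul_tensor_dual K.cplx P G x p0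
      rw [hGw, hw] at h2
      have h3 : (P.D1 * G) p0 x = 0 := by
        rw [Matrix.mul_apply]
        exact Finset.sum_eq_zero fun q _ => by rw [hP.row p0 hp0, zero_mul]
      rw [h3, add_zero] at h2
      exact h2.symm
    have h2 : ∑ i : Fin (K.n + 1), F p0 (Sum.inl i) = 1 := by
      rw [Finset.sum_eq_single (idx p0)]
      · rw [hFx, z2_eq_one _ hp0]
        simp [ind]
      · intro b _ hb
        have : ¬ ((b : ℕ) = idx p0) := fun h => hb (Fin.ext h)
        rw [hFx]
        simp [ind, this]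
      · simp
    have h3 : ∑ i : Fin (K.n + 1), (G * K.cplx.D1) p0 (Sum.inl i) = 0 := by
      have h4 : ∀ i : Fin (K.n + 1), (G * K.cplx.D1) p0 (Sum.inl i) =
          ∑ j : Fin K.n, G p0 (Sum.inr j) * K.cplx.D1 (Sum.inr j) (Sum.inl i) := by
        intro i
        rw [Matrix.mul_apply, Fintype.sum_sum_type]
        simp only [Stair.D1_xx, mul_zero, Finset.sum_const_zero, zero_add]
      rw [Finset.sum_congr rfl fun i _ => h4 i, Finset.sum_comm]
      refine Finset.sum_eq_zero fun j _ => ?_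
      rw [← Finset.mul_sum, K.sum_D1_z, mul_zero]
    rw [Finset.sum_congr rfl fun i _ => h1 (Sum.inl i), h2] at h3
    exact absurd h3 (by decide)

/-- The tower criterion. -/
theorem tower_crit (K : Stair) (P : Cplx) (A : P.ι → ZMod 2) (hP : PData P A) (s m : ℤ) :
    (K.cplx.tensor P.dual).Tower s m ↔
      Even m ∧ ∀ p, A p ≠ 0 → ∃ i : Fin (K.n + 1), m ≤ K.cplx.gw (Sum.inl i) - P.gw p ∧
        m - 2 * s ≤ K.cplx.gz (Sum.inl i) - P.gz p := by
  constructor
  · intro h
    obtain ⟨p0, hp0⟩ := hP.ne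
    exact ⟨(tower_only_if K P A hP s m h p0 hp0).1,
      fun p hp => (tower_only_if K P A hP s m h p hp).2⟩
  · rintro ⟨hm, h⟩
    exact tower_if K P A hP s m hm h

end Pool.Agent.KnotFloer
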