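import Pool.Agent.KnotFloer.Main

/-!
# Tensor products, homotopy invariance
-/

namespace Pool.Agent.KnotFloer

open MvPolynomial Matrix
open scoped Kronecker

lemma Cplx.D1_tensor' (C C' : Cplx) : (C.tensor C').D1 =
    C.D1 ⊗ₖ (1 : Matrix C'.ι C'.ι (ZMod 2)) + (1 : Matrix C.ι C.ι (ZMod 2)) ⊗ₖ C'.D1 := by
  refine Matrix.ext fun a b => ?_
  obtain ⟨i, i'⟩ := a
  obtain ⟨j, j'⟩ := b
  rw [Cplx.D1_tensor]
  simp only [Matrix.add_apply, Matrix.kroneckerMap_apply, Matrix.one_apply]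

/-- The projection matrix onto `p0`. -/
def proj {κ : Type} [DecidableEq κ] (A : κ → ZMod 2) (p0 : κ) : Matrix κ κ (ZMod 2) :=
  Matrix.of fun p q => A p * (if q = p0 then 1 else 0)

lemma Contr.eq' {P : Cplx} {A : P.ι → ZMod 2} {p0 : P.ι} (c : Contr P A p0) :
    P.D1 * c.h + c.h * P.D1 = 1 + proj A p0 := by
  refine Matrix.ext fun p q => ?_
  rw [c.eq, Matrix.add_apply, Matrix.one_apply]
  rfl

lemma PData.D_proj {P : Cplx} {A : P.ι → ZMod 2} (hP : PData P A) (p0 : P.ι) :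
    P.D1 * proj A p0 = 0 := by
  refine Matrix.ext fun p q => ?_
  rw [Matrix.mul_apply]
  simp only [proj, Matrix.of_apply, ← mul_assoc]
  rw [← Finset.sum_mul, hP.DA, zero_mul]
  rfl

lemma PData.proj_D {P : Cplx} {A : P.ι → ZMod 2} (hP : PData P A) (p0 : P.ι) (h0 : A p0 ≠ 0) :
    proj A p0 * P.D1 = 0 := by
  refine Matrix.ext fun p q => ?_
  rw [Matrix.mul_apply]
  refine Finset.sum_eq_zero fun x _ => ?_
  simp only [proj, Matrix.of_apply]
  split_ifs with h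
  · rw [h, hP.row p0 h0, mul_zero]
  · simp

lemma mat_add_self {κ κ' : Type*} (M : Matrix κ κ' (ZMod 2)) : M + M = 0 := by
  refine Matrix.ext fun p q => ?_
  exact z2_add_self _

lemma matR_add_self {κ κ' : Type*} (M : Matrix κ κ' R) : M + M = 0 := by
  refine Matrix.ext fun p q => ?_
  exact CharTwo.add_self_eq_zero _

lemma PData.tensor {P Q : Cplx} {A : P.ι → ZMod 2} {B : Q.ι → ZMod 2} (hP : PData P A)
    (hQ : PData Q B) : PData (P.tensor Q) (fun x => A x.1 * B x.2) where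
  DA := by
    rintro ⟨q, q'⟩
    rw [Fintype.sum_prod_type]
    simp only [Cplx.D1_tensor]
    have h1 : ∀ x : P.ι, ∀ y : Q.ι, ((P.D1 q x * (if q' = y then 1 else 0)) +
        (if q = x then 1 else 0) * Q.D1 q' y) * (A x * B y) =
        (P.D1 q x * A x) * ((if q' = y then 1 else 0) * B y) +
        ((if q = x then 1 else 0) * A x) * (Q.D1 q' y * B y) := by
      intro x y; ring
    simp only [h1, Finset.sum_add_distrib, ← Finset.mul_sum, ← Finset.sum_mul, hP.DA, hQ.DA,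
      zero_mul, mul_zero, add_zero]
  row := by
    rintro ⟨p, p'⟩ hp ⟨q, q'⟩
    rw [Cplx.D1_tensor, hP.row p (left_ne_zero_of_mul hp), hQ.row p' (right_ne_zero_of_mul hp)]
    simp
  contr := by
    rintro ⟨p0, p0'⟩ hp
    have h0 : A p0 ≠ 0 := left_ne_zero_of_mul hp
    have h0' : B p0' ≠ 0 := right_ne_zero_of_mul hp
    obtain ⟨c⟩ := hP.contr p0 h0
    obtain ⟨c'⟩ := hQ.contr p0' h0'
    refine ⟨⟨c.h ⊗ₖ (1 : Matrix Q.ι Q.ι (ZMod 2)) + proj A p0 ⊗ₖ c'.h, ?_, ?_⟩⟩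
    · have key : (P.tensor Q).D1 * (c.h ⊗ₖ (1 : Matrix Q.ι Q.ι (ZMod 2)) + proj A p0 ⊗ₖ c'.h) +
          (c.h ⊗ₖ (1 : Matrix Q.ι Q.ι (ZMod 2)) + proj A p0 ⊗ₖ c'.h) * (P.tensor Q).D1 =
          (1 : Matrix P.ι P.ι (ZMod 2)) ⊗ₖ (1 : Matrix Q.ι Q.ι (ZMod 2)) +
            proj A p0 ⊗ₖ proj B p0' := by
        rw [Cplx.D1_tensor']
        simp only [Matrix.mul_add, Matrix.add_mul, ← Matrix.mul_kronecker_mul, Matrix.mul_one,
          Matrix.one_mul, hP.D_proj, hP.proj_D p0 h0, Matrix.zero_kronecker, add_zero]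
        have e1 : (P.D1 * c.h) ⊗ₖ (1 : Matrix Q.ι Q.ι (ZMod 2)) +
            (c.h * P.D1) ⊗ₖ (1 : Matrix Q.ι Q.ι (ZMod 2)) =
            (1 : Matrix P.ι P.ι (ZMod 2)) ⊗ₖ (1 : Matrix Q.ι Q.ι (ZMod 2)) +
            proj A p0 ⊗ₖ (1 : Matrix Q.ι Q.ι (ZMod 2)) := by
          rw [← Matrix.add_kronecker, c.eq', Matrix.add_kronecker]
        have e2 : proj A p0 ⊗ₖ (Q.D1 * c'.h) + proj A p0 ⊗ₖ (c'.h * Q.D1) =
            proj A p0 ⊗ₖ (1 : Matrix Q.ι Q.ι (ZMod 2)) + proj A p0 ⊗ₖ proj B p0' := by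
          rw [← Matrix.kronecker_add, c'.eq', Matrix.kronecker_add]
        have e3 := mat_add_self (c.h ⊗ₖ Q.D1)
        have e4 := mat_add_self (proj A p0 ⊗ₖ (1 : Matrix Q.ι Q.ι (ZMod 2)))
        generalize (P.D1 * c.h) ⊗ₖ (1 : Matrix Q.ι Q.ι (ZMod 2)) = X1 at *
        generalize (c.h * P.D1) ⊗ₖ (1 : Matrix Q.ι Q.ι (ZMod 2)) = X2 at *
        generalize proj A p0 ⊗ₖ (Q.D1 * c'.h) = X3 at *
        generalize proj A p0 ⊗ₖ (c'.h * Q.D1) = X4 at *
        generalize c.h ⊗ₖ Q.D1 = X5 at *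
        generalize proj A p0 ⊗ₖ (1 : Matrix Q.ι Q.ι (ZMod 2)) = X6 at *
        generalize (1 : Matrix P.ι P.ι (ZMod 2)) ⊗ₖ (1 : Matrix Q.ι Q.ι (ZMod 2)) = X7 at *
        generalize proj A p0 ⊗ₖ proj B p0' = X8 at *
        have : X1 + (X5 + X3) + (X2 + (X5 + X4)) = (X1 + X2) + (X3 + X4) + (X5 + X5) := by
          abel
        have h7 : (X7 + X6) + (X6 + X8) = X7 + X8 + (X6 + X6) := by abel
        first
          | (calc _ = (X1 + X2) + (X3 + X4) + (X5 + X5) := by abel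
              _ = X7 + X8 := by rw [e1, e2, e3, add_zero, h7, e4, add_zero])
      intro p q
      have := congrFun (congrFun key p) q
      rw [this, Matrix.add_apply]
      obtain ⟨p, p'⟩ := p
      obtain ⟨q, q'⟩ := q
      simp only [Matrix.kroneckerMap_apply, Matrix.one_apply, proj, Matrix.of_apply,
        Prod.mk.injEq]
      congr 1
      · by_cases h1 : p = q <;> by_cases h2 : p' = q' <;> simp [h1, h2]
      · by_cases h1 : q = p0 <;> by_cases h2 : q' = p0' <;> simp [h1, h2]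
    · rintro ⟨p, p'⟩ ⟨q, q'⟩ hne
      simp only [Matrix.add_apply, Matrix.kroneckerMap_apply, Matrix.one_apply, proj,
        Matrix.of_apply] at hne
      obtain ⟨⟨a, ha⟩, ⟨b, hb⟩⟩ := hP.even p0 h0
      by_cases h1 : c.h p q * (if p' = q' then 1 else 0) = 0
      · rw [h1, zero_add] at hne
        have h2 : A p ≠ 0 := left_ne_zero_of_mul (left_ne_zero_of_mul hne)
        have h3 : q = p0 := by
          by_contra hcon
          rw [if_neg hcon] at hne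
          simp at hne
        have h4 : c'.h p' q' ≠ 0 := right_ne_zero_of_mul hne
        obtain ⟨⟨a', ha'⟩, ⟨b', hb'⟩⟩ := hP.even p h2
        obtain ⟨⟨a2, ha2⟩, ⟨b2, hb2⟩⟩ := c'.par p' q' h4
        subst h3
        exact ⟨⟨a - a' + a2, by simp only; omega⟩, ⟨b - b' + b2, by simp only; omega⟩⟩
      · have h2 : c.h p q ≠ 0 := left_ne_zero_of_mul h1
        have h3 : p' = q' := by
          by_contra hcon
          rw [if_neg hcon] at h1
          simp at h1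
        subst h3
        obtain ⟨⟨a2, ha2⟩, ⟨b2, hb2⟩⟩ := c.par p q h2
        exact ⟨⟨a2, by simp only; omega⟩, ⟨b2, by simp only; omega⟩⟩
  even := by
    rintro ⟨p, p'⟩ hp
    obtain ⟨h1, h2⟩ := hP.even p (left_ne_zero_of_mul hp)
    obtain ⟨h3, h4⟩ := hQ.even p' (right_ne_zero_of_mul hp)
    exact ⟨h1.add h3, h2.add h4⟩
  ne := by
    obtain ⟨p, hp⟩ := hP.ne
    obtain ⟨q, hq⟩ := hQ.ne
    exact ⟨(p, q), mul_ne_zero hp hq⟩

/-- `(K ⊗ P^∨) ⊗ Q^∨` and `K ⊗ (P ⊗ Q)^∨` have the same towers. -/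
lemma tower_assoc (K P Q : Cplx) (s m : ℤ) :
    ((K.tensor P.dual).tensor Q.dual).Tower s m ↔ (K.tensor (P.tensor Q).dual).Tower s m := by
  refine tower_equiv_iff (Equiv.prodAssoc K.ι P.ι Q.ι) ?_ ?_ ?_ s m
  · rintro ⟨⟨x, p⟩, q⟩
    simp only [Equiv.prodAssoc_apply]
    ring
  · rintro ⟨⟨x, p⟩, q⟩
    simp only [Equiv.prodAssoc_apply]
    ring
  · rintro ⟨⟨x, p⟩, q⟩ ⟨⟨x', p'⟩, q'⟩
    simp only [Equiv.prodAssoc_apply]
    rw [Cplx.D1_tensor, Cplx.D1_tensor, Cplx.D1_tensor, Cplx.D1_dual, Cplx.D1_dual,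
      Cplx.D1_dual, Cplx.D1_tensor]
    simp only [Prod.mk.injEq]
    by_cases h1 : x = x' <;> by_cases h2 : p = p' <;> by_cases h3 : q = q' <;>
      simp [h1, h2, h3, eq_comm, add_assoc]

/-- Towers are transported by chain homotopy equivalences. -/
lemma tower_of_htpy {C C' : Cplx} (E : HtpyEquiv C C') (s m : ℤ) (h : C.Tower s m) :
    C'.Tower s m := by
  obtain ⟨v, hv, hv0, hk⟩ := h
  refine ⟨v ᵥ* E.f, ?_, ?_, ?_⟩
  · intro j
    simp only [Matrix.vecMul, dotProduct]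
    refine HomogR.sum _ fun i _ => ?_
    exact ((hv i).mul (E.f_homog i j)).congr (by ring) (by ring)
  · rw [Matrix.vecMul_vecMul, ← E.f_chain, ← Matrix.vecMul_vecMul, hv0, Matrix.zero_vecMul]
  · rintro k ⟨w, hw, hw'⟩
    refine hk k ⟨w ᵥ* E.g + (U * V) ^ k • (v ᵥ* E.H), ?_, ?_⟩
    · intro j
      simp only [Pi.add_apply, Pi.smul_apply, smul_eq_mul]
      refine HomogR.add ?_ ?_
      · simp only [Matrix.vecMul, dotProduct]
        refine HomogR.sum _ fun i _ => ?_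
        exact ((hw i).mul (E.g_homog i j)).congr (by ring) (by ring)
      · have h1 : HomogR (-2 * (k : ℤ)) (-2 * (k : ℤ)) ((U * V) ^ k) :=
          Or.inr ⟨k, k, by rw [mul_pow], rfl, rfl⟩
        have h2 : HomogR (m + 1 - C.gw j) (m - 2 * s + 1 - C.gz j) ((v ᵥ* E.H) j) := by
          simp only [Matrix.vecMul, dotProduct]
          refine HomogR.sum _ fun i _ => ?_
          exact ((hv i).mul (E.H_homog i j)).congr (by ring) (by ring)
        exact (h1.mul h2).congr (by ring) (by ring)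
    · rw [Matrix.add_vecMul, Matrix.vecMul_vecMul, ← E.g_chain, ← Matrix.vecMul_vecMul, hw',
        Matrix.smul_vecMul, Matrix.smul_vecMul, Matrix.vecMul_vecMul, Matrix.vecMul_vecMul,
        ← smul_add, E.fg, Matrix.vecMul_add, Matrix.vecMul_one, Matrix.vecMul_add,
        ← Matrix.vecMul_vecMul v C.D, hv0, Matrix.zero_vecMul, zero_add, add_assoc,
        ← Matrix.vecMul_add, matR_add_self, Matrix.vecMul_zero, add_zero]

/-- The inverse homotopy equivalence. -/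
def HtpyEquiv.symm {C C' : Cplx} (E : HtpyEquiv C C') : HtpyEquiv C' C where
  f := E.g
  g := E.f
  H := E.H'
  H' := E.H
  f_homog := E.g_homog
  g_homog := E.f_homog
  H_homog := E.H'_homog
  H'_homog := E.H_homog
  f_chain := E.g_chain
  g_chain := E.f_chain
  fg := E.gf
  gf := E.fg

lemma tower_iff_of_htpy {C C' : Cplx} (E : HtpyEquiv C C') (s m : ℤ) :
    C.Tower s m ↔ C'.Tower s m :=
  ⟨tower_of_htpy E s m, tower_of_htpy E.symm s m⟩

lemma kron_homog {C C' X : Cplx} {a b : ℤ} {f : Matrix C.ι C'.ι R}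
    (hf : ∀ i j, HomogR (C.gw i + a - C'.gw j) (C.gz i + b - C'.gz j) (f i j))
    (i : C.ι × X.ι) (j : C'.ι × X.ι) :
    HomogR ((C.tensor X).gw i + a - (C'.tensor X).gw j)
      ((C.tensor X).gz i + b - (C'.tensor X).gz j) ((f ⊗ₖ (1 : Matrix X.ι X.ι R)) i j) := by
  obtain ⟨i, i'⟩ := i
  obtain ⟨j, j'⟩ := j
  simp only [Matrix.kroneckerMap_apply]
  by_cases h : i' = j'
  · subst h
    simpa using (hf i j).congr (by ring) (by ring)
  · simpa [Matrix.one_apply_ne h] using HomogR.zero _ _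

/-- Tensoring a homotopy equivalence with a complex. -/
noncomputable def HtpyEquiv.tensor {C C' : Cplx} (E : HtpyEquiv C C') (X : Cplx) :
    HtpyEquiv (C.tensor X) (C'.tensor X) where
  f := E.f ⊗ₖ (1 : Matrix X.ι X.ι R)
  g := E.g ⊗ₖ (1 : Matrix X.ι X.ι R)
  H := E.H ⊗ₖ (1 : Matrix X.ι X.ι R)
  H' := E.H' ⊗ₖ (1 : Matrix X.ι X.ι R)
  f_homog := fun i j => (kron_homog (a := 0) (b := 0) (X := X)
    (fun i j => (E.f_homog i j).congr (by ring) (by ring)) i j).congr (by ring) (by ring)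
  g_homog := fun i j => (kron_homog (a := 0) (b := 0) (X := X)
    (fun i j => (E.g_homog i j).congr (by ring) (by ring)) i j).congr (by ring) (by ring)
  H_homog := fun i j => kron_homog (a := 1) (b := 1) (X := X) E.H_homog i j
  H'_homog := fun i j => kron_homog (a := 1) (b := 1) (X := X) E.H'_homog i j
  f_chain := by
    simp only [Matrix.mul_add, Matrix.add_mul, ← Matrix.mul_kronecker_mul, Matrix.mul_one,
      Matrix.one_mul, E.f_chain]
  g_chain := by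
    simp only [Matrix.mul_add, Matrix.add_mul, ← Matrix.mul_kronecker_mul, Matrix.mul_one,
      Matrix.one_mul, E.g_chain]
  fg := by
    simp only [Matrix.mul_add, Matrix.add_mul, ← Matrix.mul_kronecker_mul, Matrix.mul_one,
      Matrix.one_mul, E.fg, Matrix.add_kronecker, Matrix.one_kronecker_one]
    have e3 := matR_add_self (E.H ⊗ₖ X.D)
    generalize (C.D * E.H) ⊗ₖ (1 : Matrix X.ι X.ι R) = X1 at *
    generalize (E.H * C.D) ⊗ₖ (1 : Matrix X.ι X.ι R) = X2 at *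
    generalize E.H ⊗ₖ X.D = X3 at *
    congr 1
    calc X1 + X2 = X1 + X2 + (X3 + X3) := by rw [e3, add_zero]
      _ = _ := by abel
  gf := by
    simp only [Matrix.mul_add, Matrix.add_mul, ← Matrix.mul_kronecker_mul, Matrix.mul_one,
      Matrix.one_mul, E.gf, Matrix.add_kronecker, Matrix.one_kronecker_one]
    have e3 := matR_add_self (E.H' ⊗ₖ X.D)
    generalize (C'.D * E.H') ⊗ₖ (1 : Matrix X.ι X.ι R) = X1 at *
    generalize (E.H' * C'.D) ⊗ₖ (1 : Matrix X.ι X.ι R) = X2 at *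
    generalize E.H' ⊗ₖ X.D = X3 at *
    congr 1
    calc X1 + X2 = X1 + X2 + (X3 + X3) := by rw [e3, add_zero]
      _ = _ := by abel

/-- The grading `gr_w` of the even generator `x_i` of a staircase. -/
def Stair.gwx (S : Stair) (i : ℕ) : ℤ := -2 * ∑ l ∈ Finset.range i, (S.h l : ℤ)

/-- The grading `gr_z` of the even generator `x_i` of a staircase. -/
def Stair.gzx (S : Stair) (i : ℕ) : ℤ := -2 * ∑ l ∈ Finset.Ico i S.n, (S.v l : ℤ)

/-- Towers of `K ⊗ L^∨` for staircases `K`, `L`. -/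
theorem stair_crit (K L : Stair) (s m : ℤ) : (K.cplx.tensor L.cplx.dual).Tower s m ↔
    Even m ∧ ∀ i ≤ L.n, ∃ k ≤ K.n, m ≤ K.gwx k - L.gwx i ∧ m - 2 * s ≤ K.gzx k - L.gzx i := by
  rw [tower_crit K L.cplx L.A L.pdata]
  refine and_congr_right fun _ => ⟨fun h i hi => ?_, fun h p hp => ?_⟩
  · obtain ⟨k, hk⟩ := h (Sum.inl ⟨i, Nat.lt_succ_iff.2 hi⟩) one_ne_zero
    exact ⟨k, Nat.lt_succ_iff.1 k.2, hk⟩
  · obtain ⟨i, rfl⟩ := Stair.A_ne hp
    obtain ⟨k, hk, hk'⟩ := h i (Nat.lt_succ_iff.1 i.2)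
    exact ⟨⟨k, Nat.lt_succ_iff.2 hk⟩, hk'⟩

/-- Towers of `(K ⊗ L^∨) ⊗ M^∨` for staircases `K`, `L`, `M`. -/
theorem stair_crit₂ (K L M : Stair) (s m : ℤ) :
    ((K.cplx.tensor L.cplx.dual).tensor M.cplx.dual).Tower s m ↔
    Even m ∧ ∀ i ≤ L.n, ∀ u ≤ M.n, ∃ k ≤ K.n, m ≤ K.gwx k - (L.gwx i + M.gwx u) ∧
      m - 2 * s ≤ K.gzx k - (L.gzx i + M.gzx u) := by
  rw [tower_assoc, tower_crit K (L.cplx.tensor M.cplx) _ (L.pdata.tensor M.pdata)]
  refine and_congr_right fun _ => ⟨fun h i hi u hu => ?_, fun h p hp => ?_⟩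
  · obtain ⟨k, hk⟩ := h (Sum.inl ⟨i, Nat.lt_succ_iff.2 hi⟩, Sum.inl ⟨u, Nat.lt_succ_iff.2 hu⟩)
      (mul_ne_zero one_ne_zero one_ne_zero)
    exact ⟨k, Nat.lt_succ_iff.1 k.2, hk⟩
  · obtain ⟨p, q⟩ := p
    obtain ⟨i, rfl⟩ := Stair.A_ne (left_ne_zero_of_mul hp)
    obtain ⟨u, rfl⟩ := Stair.A_ne (right_ne_zero_of_mul hp)
    obtain ⟨k, hk, hk'⟩ := h i (Nat.lt_succ_iff.1 i.2) u (Nat.lt_succ_iff.1 u.2)
    exact ⟨⟨k, Nat.lt_succ_iff.2 hk⟩, hk'⟩

lemma unitStair_gwx (n u : ℕ) : (unitStair n).gwx u = -2 * (u : ℤ) := by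
  simp [Stair.gwx, unitStair]

lemma unitStair_gzx (n u : ℕ) (hu : u ≤ n) : (unitStair n).gzx u = -2 * ((n : ℤ) - u) := by
  simp [Stair.gzx, unitStair, Nat.cast_sub hu]

end Pool.Agent.KnotFloer
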